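import Pool.Agent.Lib.Pad47bbZ.Siegel
import Pool.Agent.Lib.Pad47bbD.Effective

/-!
A rational polyhedral fundamental domain makes the cone rational polyhedral modulo a finite set of
lattice vectors which is permuted by the group.
-/

open Set Topology Filter

namespace Pool.Agent.Lib.Pad47bbZ

open Pool.Agent.Lib.Pad47bb Pool.Agent.Lib.Pad47bbQ Pool.Agent.Lib.Pad47bbV
  Pool.Agent.Lib.Pad47bbB

variable {V : Type*} [NormedAddCommGroup V] [NormedSpace ℝ V] [FiniteDimensional ℝ V]
  {L : Submodule ℤ V} [DiscreteTopology L] [IsZLattice ℝ L]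
  {N : PointedCone ℝ V} {Γ : Subgroup (V ≃ₗ[ℝ] V)}

/-- Finitely many translates of `cone t` meet `cone s + span J` in the interior of `N`. -/
theorem finite_near (hN : Good N) (hA : Acts L N Γ) {J : Finset V}
    (hperm : ∀ g ∈ Γ, ∀ p ∈ J, g p ∈ J) (t s : Finset V)
    (ht : ∀ y ∈ t, y ∈ L ∧ y ∈ N) (hs : ∀ y ∈ s, y ∈ L ∧ y ∈ N) :
    {g : V ≃ₗ[ℝ] V | g ∈ Γ ∧ ∃ y ∈ PointedCone.hull ℝ (t : Set V),
      g y ∈ interior (N : Set V) ∧ g y ∈ sumCone s J}.Finite := by
  classical
  set A := {g : V ≃ₗ[ℝ] V | g ∈ Γ ∧ ∃ y ∈ PointedCone.hull ℝ (t : Set V),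
      g y ∈ interior (N : Set V) ∧ g y ∈ sumCone s J} with hAdef
  refine Set.Finite.of_finite_fibers (fun g (p : J) => g (p : V)) ?_ ?_
  · refine (Set.Finite.pi' (fun _ : J => J.finite_toSet)).subset ?_
    rintro _ ⟨g, hg, rfl⟩
    exact fun p => hperm g hg.1 p p.2
  · rintro _ ⟨g₀, hg₀, rfl⟩
    have himg : J.image g₀ = J := by
      refine Finset.eq_of_subset_of_card_le ?_ ?_
      · intro x hx
        obtain ⟨p, hp, rfl⟩ := Finset.mem_image.1 hx
        exact hperm g₀ hg₀.1 p hp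
      · rw [Finset.card_image_of_injective _ g₀.injective]
    have hfin := finite_meets hN hA _ (t.image g₀) s (Submodule.span ℝ (J : Set V)) le_rfl (by
      intro y hy
      obtain ⟨y', hy', rfl⟩ := Finset.mem_image.1 hy
      exact ⟨hA.map_lattice g₀ hg₀.1 y' (ht y' hy').1, hA.map_cone g₀ hg₀.1 y' (ht y' hy').2⟩) hs
    refine (hfin.image (fun h : V ≃ₗ[ℝ] V => h * g₀)).subset ?_
    rintro g ⟨⟨hg, y, hy, hint, hsum⟩, hgJ⟩
    have hgJ' : ∀ p ∈ J, g p = g₀ p := fun p hp => congrFun hgJ ⟨p, hp⟩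
    obtain ⟨z, hz, hzJ⟩ := mem_sumCone.1 hsum
    refine ⟨g * g₀⁻¹, ⟨mul_mem hg (inv_mem hg₀.1), ?_, g y, hint, ⟨g₀ y, ?_, ?_⟩, z, hz, hzJ⟩,
      by group⟩
    · intro w hw
      have hfix : ∀ p ∈ J, (g * g₀⁻¹) p = p := by
        intro p hp
        rw [← himg] at hp
        obtain ⟨p', hp', rfl⟩ := Finset.mem_image.1 hp
        rw [apply_mul_inv, hgJ' p' hp']
      induction hw using Submodule.span_induction with
      | mem x hx => exact hfix x hx
      | zero => rw [map_zero]
      | add x y _ _ hx hy => rw [map_add, hx, hy]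
      | smul c x _ hx => rw [map_smul, hx]
    · obtain ⟨c, hc, rfl⟩ := mem_hull_finset.1 hy
      rw [map_sum]
      refine Submodule.sum_mem _ fun i hi => ?_
      rw [map_smul]
      exact PointedCone.smul_mem _ (hc i hi)
        (Submodule.subset_span (Finset.mem_coe.2 (Finset.mem_image_of_mem g₀ hi)))
    · rw [apply_mul_inv, sub_self]
      exact Submodule.zero_mem _

/-- A finite set of lattice vectors whose cone covers the interior of `N` under `Γ` makes `N`
rational polyhedral modulo every finite set of lattice vectors permuted by `Γ`. -/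
theorem isRatPoly_of_cover [Nontrivial V] (hN : Good N) (hA : Acts L N Γ) {J : Finset V}
    (hJ : ∀ p ∈ J, p ∈ L) (hperm : ∀ g ∈ Γ, ∀ p ∈ J, g p ∈ J) {t : Finset V}
    (ht : ∀ y ∈ t, y ∈ L ∧ y ∈ N)
    (hcov : ∀ x ∈ interior (N : Set V), ∃ g ∈ Γ, ∃ y ∈ PointedCone.hull ℝ (t : Set V), g y = x)
    {S : Finset V} (hS : ∀ y ∈ S, y ∈ L ∧ y ∈ N) : IsRatPoly L (N ⊓ sumCone S J) := by
  classical
  have hcl : closure (N : Set V) = N := hN.closed.closure_eq
  obtain ⟨f, hf⟩ := exists_pos N (by rw [hcl]; exact fun x hx hx' => hN.salient x hx hx')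
  obtain ⟨a, haL, -, ha⟩ := exists_lattice_interior L hN.interior_nonempty
  have haN : a ∈ N := interior_subset ha
  have hfin := finite_near hN hA hperm t (insert a S) ht (by
    intro y hy
    rcases Finset.mem_insert.1 hy with rfl | hy
    · exact ⟨haL, haN⟩
    · exact hS y hy)
  set F := hfin.toFinset with hF
  have hFΓ : ∀ g ∈ F, g ∈ Γ := fun g hg => (hfin.mem_toFinset.1 hg).1
  have htN : PointedCone.hull ℝ (t : Set V) ≤ N := Submodule.span_le.2 fun y hy => (ht y hy).2
  have hmain : N ⊓ sumCone S J =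
      ⨆ g ∈ F, (imageCone g (PointedCone.hull ℝ (t : Set V)) ⊓ sumCone S J) := by
    apply le_antisymm
    · rintro x ⟨hxN, hxS⟩
      have hint : ∀ n : ℕ, x + (1 / ((n : ℝ) + 1)) • a ∈ interior (N : Set V) := by
        intro n
        rw [add_comm]
        exact interior_add_mem (interior_smul_mem ha (by positivity)) hxN
      have hex : ∀ n : ℕ, ∃ g ∈ F, x + (1 / ((n : ℝ) + 1)) • a ∈
          (g : V → V) '' (PointedCone.hull ℝ (t : Set V) : Set V) := by
        intro n
        obtain ⟨g, hg, y, hy, hgy⟩ := hcov _ (hint n)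
        refine ⟨g, hfin.mem_toFinset.2 ⟨hg, y, hy, ?_, ?_⟩, y, hy, hgy⟩
        · rw [hgy]
          exact hint n
        · rw [hgy]
          obtain ⟨z, hz, hzJ⟩ := mem_sumCone.1 hxS
          refine mem_sumCone.2 ⟨z + (1 / ((n : ℝ) + 1)) • a, ?_, ?_⟩
          · refine Submodule.add_mem _ (Submodule.span_mono ?_ hz) ?_
            · intro v hv
              exact Finset.mem_coe.2 (Finset.mem_insert_of_mem (Finset.mem_coe.1 hv))
            · exact PointedCone.smul_mem _ (by positivity)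
                (Submodule.subset_span (Finset.mem_coe.2 (Finset.mem_insert_self a S)))
          · rwa [add_sub_add_right_eq_sub]
      have hclosed : IsClosed (⋃ g ∈ F, (g : V → V) '' (PointedCone.hull ℝ (t : Set V) : Set V)) :=
        F.finite_toSet.isClosed_biUnion fun g _ =>
          g.toContinuousLinearEquiv.toHomeomorph.isClosedMap _
            (isClosed_hull f hf t fun y hy => (ht y hy).2)
      have hlim := Pad47bbM.tendsto_add_smul x a
      have hx : x ∈ ⋃ g ∈ F, (g : V → V) '' (PointedCone.hull ℝ (t : Set V) : Set V) := by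
        refine hclosed.mem_of_tendsto hlim (Eventually.of_forall fun n => ?_)
        obtain ⟨g, hg, h⟩ := hex n
        exact mem_biUnion hg h
      simp only [mem_iUnion] at hx
      obtain ⟨g, hg, y, hy, hgy⟩ := hx
      have h1 : imageCone g (PointedCone.hull ℝ (t : Set V)) ⊓ sumCone S J ≤
          ⨆ g ∈ F, (imageCone g (PointedCone.hull ℝ (t : Set V)) ⊓ sumCone S J) :=
        le_biSup (fun g => imageCone g (PointedCone.hull ℝ (t : Set V)) ⊓ sumCone S J) hg
      exact h1 ⟨⟨y, hy, hgy⟩, hxS⟩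
    · refine iSup₂_le fun g hg => ?_
      exact inf_le_inf_right _ (imageCone_le fun x hx => hA.map_cone g (hFΓ g hg) x (htN hx))
  rw [hmain]
  refine IsRatPoly.biSup F _ fun g hg => ?_
  exact Pad47bbD.isRatPoly_inf
    (IsRatPoly.image ⟨t, fun y hy => (ht y hy).1, rfl⟩ g (hA.map_lattice g (hFΓ g hg)))
    (isRatPoly_sumCone L S J (fun y hy => (hS y hy).1) hJ)

end Pool.Agent.Lib.Pad47bbZ
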