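import Pool.Agent.Lib.Pad47bbZ.Dense

/-!
Covers modulo the span of `J` by lattice points of the interior: codimension at most one, codimension
two, and maximal rank.
-/

open Set Topology NormedSpace Filter

namespace Pool.Agent.Lib.Pad47bbZ

open Pool.Agent.Lib.Pad47bb Pool.Agent.Lib.Pad47bbQ Pool.Agent.Lib.Pad47bbV
  Pool.Agent.Lib.Pad47bbB

universe u

variable {V : Type u} [NormedAddCommGroup V] [NormedSpace ℝ V] [FiniteDimensional ℝ V]
  {L : Submodule ℤ V} [DiscreteTopology L] [IsZLattice ℝ L]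
  {N : PointedCone ℝ V} {J : Finset V} {Γ : Subgroup (V ≃ₗ[ℝ] V)}
/-- A functional which is positive at some point of `N` is positive at some lattice point of the
interior. -/
theorem exists_lattice_pos' {N : PointedCone ℝ V} (hN : (interior (N : Set V)).Nonempty)
    (ψ : V →L[ℝ] ℝ) {x : V} (hx : x ∈ N) (hψ : 0 < ψ x) :
    ∃ y ∈ L, y ∈ interior (N : Set V) ∧ 0 < ψ y := by
  obtain ⟨e, he⟩ := hN
  -- an interior point with positive value
  obtain ⟨q, hq, hqψ⟩ : ∃ q ∈ interior (N : Set V), 0 < ψ q := by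
    set δ : ℝ := ψ x / (2 * (1 + |ψ e|)) with hδ
    have hδ0 : 0 < δ := by positivity
    refine ⟨δ • e + x, interior_add (interior_smul' he hδ0) hx, ?_⟩
    rw [map_add, map_smul, smul_eq_mul]
    have h1 : δ * (2 * (1 + |ψ e|)) = ψ x := by
      rw [hδ]; field_simp
    have h2 : -|ψ e| ≤ ψ e := neg_abs_le _
    nlinarith [abs_nonneg (ψ e)]
  have hU : IsOpen (interior (N : Set V) ∩ {z | 0 < ψ z}) :=
    isOpen_interior.inter (isOpen_lt continuous_const ψ.continuous)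
  obtain ⟨s, hs1, hs2, hs3⟩ := exists_ratPoly_nhds L hU ⟨hq, hqψ⟩
  have hne : s.Nonempty := by
    by_contra h
    rw [Finset.not_nonempty_iff_eq_empty] at h
    subst h
    have h1 := interior_subset hs3
    simp only [Finset.coe_empty, Submodule.span_empty, Submodule.bot_coe, mem_singleton_iff] at h1
    rw [h1] at hqψ
    simp at hqψ
  obtain ⟨v, hv⟩ := hne
  obtain ⟨c, hc, hcv⟩ := hs2 v hv
  refine ⟨v, hs1 hv, ?_, ?_⟩
  · have h2 := interior_smul' hcv.1 (inv_pos.2 hc)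
    rwa [smul_smul, inv_mul_cancel₀ hc.ne', one_smul] at h2
  · have h1 : 0 < ψ (c • v) := hcv.2
    rw [map_smul, smul_eq_mul] at h1
    exact (mul_pos_iff_of_pos_left hc).1 h1

/-- If `span J` has codimension at most one, then `N` is contained in `cone Y + span J` for a finite
set `Y` of lattice points of the interior. -/
theorem exists_sumCone_of_corank {N : PointedCone ℝ V} (hN : (interior (N : Set V)).Nonempty)
    (h : V) (hh : ∀ x : V, ∃ c : ℝ, x - c • h ∈ Submodule.span ℝ (J : Set V)) :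
    ∃ Y : Finset V, (∀ y ∈ Y, y ∈ L ∧ y ∈ interior (N : Set V)) ∧ ∀ x ∈ N, x ∈ sumCone Y J := by
  classical
  by_cases hW : h ∈ Submodule.span ℝ (J : Set V)
  · refine ⟨∅, by simp, fun x _ => mem_sumCone.2 ⟨0, Submodule.zero_mem _, ?_⟩⟩
    obtain ⟨c, hc⟩ := hh x
    have h1 := Submodule.add_mem _ hc (Submodule.smul_mem _ c hW)
    simpa using h1
  · have hlt : Submodule.span ℝ (J : Set V) < ⊤ := by
      rw [lt_top_iff_ne_top]
      intro htop
      exact hW (by rw [htop]; exact Submodule.mem_top)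
    obtain ⟨f, hf0, hf⟩ := Submodule.exists_le_ker_of_lt_top _ hlt
    have hfh : f h ≠ 0 := by
      intro h0
      apply hf0
      ext x
      obtain ⟨c, hc⟩ := hh x
      have h1 : f (x - c • h) = 0 := hf hc
      rw [map_sub, map_smul, h0, smul_zero, sub_zero] at h1
      simpa using h1
    have hker : ∀ z, f z = 0 → z ∈ Submodule.span ℝ (J : Set V) := by
      intro z hz
      obtain ⟨c, hc⟩ := hh z
      have h1 : f (z - c • h) = 0 := hf hc
      rw [map_sub, map_smul, hz, zero_sub, neg_eq_zero, smul_eq_mul, mul_eq_zero] at h1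
      rcases h1 with h1 | h1
      · rw [h1] at hc
        simpa using hc
      · exact absurd h1 hfh
    set ψ : V →L[ℝ] ℝ := LinearMap.toContinuousLinearMap f with hψ
    have hψf : ∀ x, ψ x = f x := fun x => rfl
    -- lattice points of either sign
    obtain ⟨Y, hY, hYpos⟩ : ∃ Y : Finset V, (∀ y ∈ Y, y ∈ L ∧ y ∈ interior (N : Set V)) ∧
        ∀ x ∈ N, f x ≠ 0 → ∃ y ∈ Y, ∃ c : ℝ, 0 ≤ c ∧ f x = c * f y := by
      have hp : ∃ Y : Finset V, (∀ y ∈ Y, y ∈ L ∧ y ∈ interior (N : Set V)) ∧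
          ∀ x ∈ N, 0 < f x → ∃ y ∈ Y, ∃ c : ℝ, 0 ≤ c ∧ f x = c * f y := by
        by_cases hex : ∃ x ∈ N, 0 < f x
        · obtain ⟨x, hx, hfx⟩ := hex
          obtain ⟨y, hyL, hyN, hy⟩ := exists_lattice_pos' (L := L) hN ψ hx hfx
          refine ⟨{y}, fun z hz => ?_, fun z hz hfz => ⟨y, by simp, f z / f y, ?_, ?_⟩⟩
          · rw [Finset.mem_singleton] at hz; subst hz; exact ⟨hyL, hyN⟩
          · have : 0 < f y := hy
            positivity
          · have : 0 < f y := hy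
            field_simp
        · exact ⟨∅, by simp, fun x hx hfx => absurd ⟨x, hx, hfx⟩ hex⟩
      have hn : ∃ Y : Finset V, (∀ y ∈ Y, y ∈ L ∧ y ∈ interior (N : Set V)) ∧
          ∀ x ∈ N, f x < 0 → ∃ y ∈ Y, ∃ c : ℝ, 0 ≤ c ∧ f x = c * f y := by
        by_cases hex : ∃ x ∈ N, f x < 0
        · obtain ⟨x, hx, hfx⟩ := hex
          obtain ⟨y, hyL, hyN, hy⟩ := exists_lattice_pos' (L := L) hN (-ψ) hx (by
            show 0 < (-ψ) x
            have : (-ψ) x = - f x := rfl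
            rw [this]; linarith)
          have hy' : f y < 0 := by
            have : (-ψ) y = - f y := rfl
            rw [this] at hy; linarith
          refine ⟨{y}, fun z hz => ?_, fun z hz hfz => ⟨y, by simp, f z / f y, ?_, ?_⟩⟩
          · rw [Finset.mem_singleton] at hz; subst hz; exact ⟨hyL, hyN⟩
          · exact (div_pos_of_neg_of_neg hfz hy').le
          · rw [div_mul_cancel₀ _ hy'.ne]
        · exact ⟨∅, by simp, fun x hx hfx => absurd ⟨x, hx, hfx⟩ hex⟩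
      obtain ⟨Y₁, h1, h1'⟩ := hp
      obtain ⟨Y₂, h2, h2'⟩ := hn
      refine ⟨Y₁ ∪ Y₂, fun y hy => ?_, fun x hx hfx => ?_⟩
      · rcases Finset.mem_union.1 hy with hy | hy
        · exact h1 y hy
        · exact h2 y hy
      · rcases lt_or_gt_of_ne hfx with hlt | hgt
        · obtain ⟨y, hy, c, hc⟩ := h2' x hx hlt
          exact ⟨y, Finset.mem_union_right _ hy, c, hc⟩
        · obtain ⟨y, hy, c, hc⟩ := h1' x hx hgt
          exact ⟨y, Finset.mem_union_left _ hy, c, hc⟩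
    refine ⟨Y, hY, fun x hx => mem_sumCone.2 ?_⟩
    by_cases hfx : f x = 0
    · exact ⟨0, Submodule.zero_mem _, hker _ (by simpa using hfx)⟩
    · obtain ⟨y, hy, c, hc, hcy⟩ := hYpos x hx hfx
      refine ⟨c • y, (PointedCone.hull ℝ (Y : Set V)).smul_mem hc (Submodule.subset_span hy),
        hker _ ?_⟩
      rw [map_sub, map_smul, smul_eq_mul, hcy, sub_self]

/-- A cover in codimension at most one. -/
theorem ModData.exists_cover_one (D : ModData L N J Γ)
    (h1 : Module.finrank ℝ V ≤ Module.finrank ℝ (Submodule.span ℝ (J : Set V)) + 1) :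
    ∃ Y : Finset V, (∀ y ∈ Y, y ∈ L ∧ y ∈ interior (N : Set V)) ∧ Covers N J Y Γ := by
  obtain ⟨h, hh⟩ := exists_vec_of_finrank h1
  obtain ⟨Y, hY, hcov⟩ := exists_sumCone_of_corank (L := L) D.good.interior_nonempty h hh
  refine ⟨Y, hY, fun x hx => ?_⟩
  obtain ⟨y, hy, hxy⟩ := mem_sumCone.1 (hcov x (interior_subset hx))
  exact ⟨1, one_mem Γ, y, hy, hxy⟩

/-- A cover in codimension two. -/
theorem ModData.exists_cover_two (D : ModData L N J Γ)
    (h2 : Module.finrank ℝ V = Module.finrank ℝ (Submodule.span ℝ (J : Set V)) + 2)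
    [Infinite Γ] : ∃ Y : Finset V, (∀ y ∈ Y, y ∈ L ∧ y ∈ interior (N : Set V)) ∧
      Covers N J Y Γ := by
  classical
  obtain ⟨π, hπ, hker, hint⟩ := exists_quot L D.comp h2
  obtain ⟨M, hM, hMd, hMl⟩ := lattice_image L π hπ hint
  have hinf : Infinite (quotGroup π Γ) := D.infinite_quot hπ hker hM
  obtain ⟨Z, hZ, hcov⟩ := sector_cover (by simp) M (π '' interior (N : Set V)) (quotGroup π Γ)
    (by
      rintro h ⟨g, hg, hgh⟩ u hu
      obtain ⟨x, hx, rfl⟩ := (hM u).1 hu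
      rw [hgh]
      exact (hM _).2 ⟨g x, D.acts.map_lattice g hg x hx, rfl⟩)
    (by
      rintro h ⟨g, hg, hgh⟩ _ ⟨x, hx, rfl⟩
      rw [hgh]
      exact ⟨g x, interior_map_mem (D.acts.map_cone g hg) hx, rfl⟩)
  -- lift the generators
  have hlift : ∀ z ∈ Z, ∃ Y : Finset V, (∀ y ∈ Y, y ∈ L ∧ y ∈ interior (N : Set V)) ∧
      ∃ x ∈ PointedCone.hull ℝ (Y : Set V), π x = z := by
    intro z hz
    obtain ⟨x, hx, rfl⟩ := hZ hz
    obtain ⟨Y, hY, hxY⟩ := Pad47bbM.exists_hull_interior (L := L) hx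
    exact ⟨Y, hY, x, hxY, rfl⟩
  choose! Y hY x hx hπx using hlift
  refine ⟨Z.biUnion Y, ?_, ?_⟩
  · intro y hy
    obtain ⟨z, hz, hy⟩ := Finset.mem_biUnion.1 hy
    exact hY z hz y hy
  · intro v hv
    obtain ⟨h, ⟨g, hg, hgh⟩, hhv⟩ := hcov (π v) ⟨v, hv, rfl⟩
    obtain ⟨c, hc, hvc⟩ := mem_hull_finset.1 hhv
    refine ⟨g, hg, ∑ z ∈ Z, c z • x z, ?_, ?_⟩
    · refine Submodule.sum_mem _ fun z hz => ?_
      have h3 : PointedCone.hull ℝ (Y z : Set V) ≤
          PointedCone.hull ℝ ((Z.biUnion Y : Finset V) : Set V) := by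
        apply Submodule.span_mono
        intro a ha
        exact Finset.mem_coe.2 (Finset.mem_biUnion.2 ⟨z, hz, ha⟩)
      exact (PointedCone.hull ℝ ((Z.biUnion Y : Finset V) : Set V)).smul_mem (hc z hz)
        (h3 (hx z hz))
    · rw [← hker, map_sub, ← hgh, hvc, map_sum, sub_eq_zero]
      refine Finset.sum_congr rfl fun z hz => ?_
      rw [map_smul, hπx z hz]

/-- The rank bound, and a cover in maximal rank. -/
theorem ModData.exists_cover_max [Nontrivial V] (D : ModData L N J Γ) {m : ℕ}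
    (φ : Multiplicative (Fin m → ℤ) →* (V ≃ₗ[ℝ] V)) (hφ : Function.Injective φ)
    (hφΓ : ∀ k, φ k ∈ Γ) (hm : 0 < m) :
    m + Module.finrank ℝ (Submodule.span ℝ (J : Set V)) < Module.finrank ℝ V ∧
      (Module.finrank ℝ V = Module.finrank ℝ (Submodule.span ℝ (J : Set V)) + (m + 1) →
        ∃ Y : Finset V, (∀ y ∈ Y, y ∈ L ∧ y ∈ interior (N : Set V)) ∧ Covers N J Y Γ) := by
  classical
  have hle := Submodule.finrank_le (Submodule.span ℝ (J : Set V))
  obtain ⟨k, hk⟩ := Nat.exists_eq_add_of_le hle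
  obtain ⟨π, hπ, hker, hint⟩ := exists_quot L D.comp hk
  obtain ⟨M, hM, hMd, hMl⟩ := lattice_image L π hπ hint
  obtain ⟨x₀, ρ, hx₀L, hx₀, hρ, hstab⟩ := D.exists_action hπ hker hM φ hφ hφΓ
  have hx0 : π x₀ ≠ 0 := by
    intro h0
    have h1 := hstab (fun _ => 1) (by rw [h0, map_zero])
    have h2 := congrFun h1 ⟨0, hm⟩
    simp at h2
  have hx₀M : π x₀ ∈ M := (hM _).2 ⟨x₀, hx₀L, rfl⟩
  have hρM : ∀ k, ∀ v ∈ M, act ρ k v ∈ M := by
    intro k v hv
    obtain ⟨x, hx, rfl⟩ := (hM v).1 hv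
    obtain ⟨g, hg, hgx⟩ := hρ k
    rw [hgx]
    exact (hM _).2 ⟨g x, D.acts.map_lattice g hg x hx, rfl⟩
  have hbound := rank_lt_of_stab ρ M hρM hx0 hx₀M hstab
  rw [Module.finrank_fin_fun] at hbound
  refine ⟨by omega, fun hmax => ?_⟩
  have hcyc := cyclic_of_stab ρ M hρM (by rw [Module.finrank_fin_fun]; omega) hx0 hx₀M hstab
  obtain ⟨R, i1, i2, i3, ⟨Md⟩⟩ := exists_model ρ (π x₀) hcyc
  let LR : Submodule ℤ R := ZLattice.comap ℝ M Md.ev.toLinearMap
  have hρinj : Function.Injective ρ := by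
    rw [injective_iff_map_eq_one]
    intro l hl
    have h1 : act ρ (Multiplicative.toAdd l) (π x₀) = π x₀ := by
      show ρ l (π x₀) = π x₀
      rw [hl]
      rfl
    exact Multiplicative.toAdd.injective (hstab _ h1)
  have hMR : MaxRank LR Md.lam :=
    { mem := Md.mem_logLat M hρM
      mul_indep := Md.mul_indep hρinj
      card := by
        rw [Fintype.card_fin, Md.ev.toLinearEquiv.finrank_eq, Module.finrank_fin_fun]
        omega }
  let K : PointedCone ℝ (Fin k → ℝ) := PointedCone.map π N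
  have hKmem : ∀ u, u ∈ K ↔ ∃ x ∈ N, π x = u := fun u => Iff.rfl
  have hopen : IsOpenMap π := LinearMap.isOpenMap_of_finiteDimensional π hπ
  have hKint : ∀ x ∈ interior (N : Set V), π x ∈ interior (K : Set (Fin k → ℝ)) := by
    intro x hx
    rw [mem_interior]
    refine ⟨π '' interior (N : Set V), ?_, hopen _ isOpen_interior, ⟨x, hx, rfl⟩⟩
    rintro _ ⟨y, hy, rfl⟩
    exact (hKmem _).2 ⟨y, interior_subset hy, rfl⟩
  have hKinv : ∀ l, ∀ v ∈ K, act ρ l v ∈ K := by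
    intro l v hv
    obtain ⟨x, hx, rfl⟩ := (hKmem v).1 hv
    obtain ⟨g, hg, hgx⟩ := hρ l
    rw [hgx]
    exact (hKmem _).2 ⟨g x, D.acts.map_cone g hg x hx, rfl⟩
  have hKR : ∀ r, r ∈ interior (Md.cone K : Set R) ↔ Md.ev r ∈ interior (K : Set (Fin k → ℝ)) := by
    intro r
    have h1 : (Md.cone K : Set R) = Md.ev.toHomeomorph ⁻¹' (K : Set (Fin k → ℝ)) := rfl
    rw [h1, ← Md.ev.toHomeomorph.preimage_interior]
    rfl
  have h1int : (1 : R) ∈ interior (Md.cone K : Set R) := by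
    rw [hKR, Md.ev_one]
    exact hKint _ hx₀
  obtain ⟨Q, hQ, hQK, hcov⟩ := cover_units hMR ⟨1, h1int⟩ (Md.mem_coneLat hKinv)
  -- lifts
  have hlift : ∀ q ∈ Q, ∃ Y : Finset V, (∀ y ∈ Y, y ∈ L ∧ y ∈ interior (N : Set V)) ∧
      Md.ev q ∈ π '' interior (PointedCone.hull ℝ (Y : Set V) : Set V) := by
    intro q hq
    obtain ⟨x, hx, hxq⟩ := exists_lift_interior π D.good.interior_nonempty ((hKR q).1 (hQK hq))
    obtain ⟨s, hs1, hs2, hs3⟩ := exists_ratPoly_nhds L isOpen_interior hx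
    refine ⟨s, fun v hv => ⟨hs1 hv, ?_⟩, x, hs3, hxq⟩
    obtain ⟨c, hc, hcv⟩ := hs2 v hv
    have := interior_smul' hcv (inv_pos.2 hc)
    rwa [smul_smul, inv_mul_cancel₀ hc.ne', one_smul] at this
  choose! Y hY hYq using hlift
  obtain ⟨t, htQ, htcov⟩ := hQ.elim_nhds_subcover
    (fun q => Md.ev ⁻¹' (π '' interior (PointedCone.hull ℝ (Y q : Set V) : Set V)))
    (fun q hq => ((hopen _ isOpen_interior).preimage Md.ev.continuous).mem_nhds (hYq q hq))
  have hZ : ∀ y ∈ t.biUnion Y, y ∈ L ∧ y ∈ interior (N : Set V) := by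
    intro y hy
    obtain ⟨q, hq, hy⟩ := Finset.mem_biUnion.1 hy
    exact hY q (htQ q hq) y hy
  have hQZ : ∀ q ∈ Q, ∃ y ∈ PointedCone.hull ℝ ((t.biUnion Y : Finset V) : Set V),
      π y = Md.ev q := by
    intro q hq
    have h1 := htcov hq
    simp only [mem_iUnion] at h1
    obtain ⟨p, hp, y, hy, hyq⟩ := h1
    refine ⟨y, ?_, hyq⟩
    have h2 : PointedCone.hull ℝ (Y p : Set V) ≤
        PointedCone.hull ℝ ((t.biUnion Y : Finset V) : Set V) := by
      apply Submodule.span_mono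
      intro a ha
      exact Finset.mem_coe.2 (Finset.mem_biUnion.2 ⟨p, hp, ha⟩)
    exact h2 (interior_subset hy)
  refine ⟨t.biUnion Y, hZ, D.covers_of_dense _ (fun y hy => ⟨(hZ y hy).1, interior_subset (hZ y hy).2⟩) ?_⟩
  intro x hx
  refine ⟨fun n => x + (1 / ((n : ℝ) + 1)) • x₀, Pad47bbM.tendsto_add_smul _ _, ?_⟩
  set r : R := Md.ev.symm (π x) with hr
  have hbad := finite_nonunit r
  have hinj : Function.Injective fun n : ℕ => 1 / ((n : ℝ) + 1) := by
    intro a b hab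
    have h1 : (a : ℝ) + 1 = b + 1 := by
      have h2 := congrArg (fun z : ℝ => z⁻¹) hab
      simpa using h2
    exact_mod_cast add_right_cancel h1
  have hbad' := hbad.preimage hinj.injOn
  have hev : ∀ᶠ n : ℕ in atTop, n ∉ (fun n : ℕ => 1 / ((n : ℝ) + 1)) ⁻¹'
      {ε : ℝ | ¬ ∃ u', (r + ε • 1) * u' = 1} := by
    rw [← Nat.cofinite_eq_atTop]
    exact hbad'.compl_mem_cofinite
  filter_upwards [hev] with n hn hun
  have hunit : ∃ u', (r + (1 / ((n : ℝ) + 1)) • (1 : R)) * u' = 1 := by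
    by_contra h
    exact hn h
  have hev1 : Md.ev (r + (1 / ((n : ℝ) + 1)) • (1 : R)) = π (x + (1 / ((n : ℝ) + 1)) • x₀) := by
    rw [map_add, map_smul, Md.ev_one, hr, Md.ev.apply_symm_apply, map_add, map_smul]
  obtain ⟨c, hc, s, hs, q, hq, hvq⟩ := hcov _ ((hKR _).2 (by rw [hev1]; exact hKint _ hun)) hunit
  obtain ⟨l, hl⟩ := (Submodule.mem_span_range_iff_exists_fun ℤ).1 hs
  obtain ⟨y, hy, hyq⟩ := hQZ q hq
  obtain ⟨g, hg, hgx⟩ := hρ (2 • l)
  have h3 : π (x + (1 / ((n : ℝ) + 1)) • x₀) = π (c • g y) := by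
    rw [← hev1, hvq, map_smul, ← hl, Md.ev_exp, ← hyq, hgx, map_smul]
  refine ⟨g⁻¹, inv_mem hg, c • y, (PointedCone.hull ℝ _).smul_mem hc.le hy, ?_⟩
  have h4 : x + (1 / ((n : ℝ) + 1)) • x₀ - c • g y ∈ Submodule.span ℝ (J : Set V) := by
    rw [← hker, map_sub, h3, sub_self]
  have h5 := D.map_span (inv_mem hg) h4
  rw [map_sub, map_smul] at h5
  have h6 : g⁻¹ (g y) = y := g.symm_apply_apply _
  rwa [h6] at h5

/-- A cover in all cases. -/
theorem ModData.exists_cover_large [Nontrivial V] (D : ModData L N J Γ)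
    (h : (∃ (m : ℕ) (φ : Multiplicative (Fin m → ℤ) →* (V ≃ₗ[ℝ] V)), Function.Injective φ ∧
        (∀ k, φ k ∈ Γ) ∧
        Module.finrank ℝ V ≤ Module.finrank ℝ (Submodule.span ℝ (J : Set V)) + m + 1) ∨
      Infinite Γ ∧ Module.finrank ℝ V ≤ Module.finrank ℝ (Submodule.span ℝ (J : Set V)) + 2) :
    ∃ Y : Finset V, (∀ y ∈ Y, y ∈ L ∧ y ∈ interior (N : Set V)) ∧ Covers N J Y Γ := by
  rcases h with ⟨m, φ, hφ, hφΓ, hm⟩ | ⟨hinf, h2⟩
  · rcases Nat.eq_zero_or_pos m with h0 | h0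
    · exact D.exists_cover_one (by omega)
    · obtain ⟨h1, h3⟩ := D.exists_cover_max φ hφ hφΓ h0
      exact h3 (by omega)
  · by_cases h1 : Module.finrank ℝ V ≤ Module.finrank ℝ (Submodule.span ℝ (J : Set V)) + 1
    · exact D.exists_cover_one h1
    · exact D.exists_cover_two (by omega)

end Pool.Agent.Lib.Pad47bbZ
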