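import Pool.Agent.Lib.Pad47bbZ.Converse

/-!
A cone, a group and a finite set of lattice vectors permuted by the group.
-/

open Set Topology NormedSpace Filter

namespace Pool.Agent.Lib.Pad47bbZ

open Pool.Agent.Lib.Pad47bb Pool.Agent.Lib.Pad47bbQ Pool.Agent.Lib.Pad47bbV
  Pool.Agent.Lib.Pad47bbB

universe u

variable {V : Type u} [NormedAddCommGroup V] [NormedSpace ℝ V] [FiniteDimensional ℝ V]
  {L : Submodule ℤ V} [DiscreteTopology L] [IsZLattice ℝ L]
  {N : PointedCone ℝ V} {J : Finset V} {Γ : Subgroup (V ≃ₗ[ℝ] V)}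
  {U : Type*} [NormedAddCommGroup U] [NormedSpace ℝ U] [FiniteDimensional ℝ U]

/-- `N` is a closed convex cone with interior points and without lines, `Γ` preserves the lattice `L`
and `N`, and permutes the finite set `J` of lattice vectors. -/
structure ModData {V : Type*} [NormedAddCommGroup V] [NormedSpace ℝ V] (L : Submodule ℤ V)
    (N : PointedCone ℝ V) (J : Finset V) (Γ : Subgroup (V ≃ₗ[ℝ] V)) : Prop where
  good : Good N
  acts : Acts L N Γ
  comp : ∀ p ∈ J, p ∈ L
  perm : ∀ g ∈ Γ, ∀ p ∈ J, g p ∈ J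

omit [FiniteDimensional ℝ V] [DiscreteTopology L] [IsZLattice ℝ L] in
/-- Elements of `Γ` preserve the span of `J`. -/
theorem ModData.map_span (D : ModData L N J Γ) {g : V ≃ₗ[ℝ] V} (hg : g ∈ Γ) {x : V}
    (hx : x ∈ Submodule.span ℝ (J : Set V)) : g x ∈ Submodule.span ℝ (J : Set V) := by
  induction hx using Submodule.span_induction with
  | mem x hx => exact Submodule.subset_span (D.perm g hg x hx)
  | zero => rw [map_zero]; exact Submodule.zero_mem _
  | add x y _ _ hx hy => rw [map_add]; exact Submodule.add_mem _ hx hy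
  | smul c x _ hx => rw [map_smul]; exact Submodule.smul_mem _ c hx

omit [FiniteDimensional ℝ V] [DiscreteTopology L] [IsZLattice ℝ L] [FiniteDimensional ℝ U] in
/-- The quotient data of a pair. -/
theorem ModData.isQuot (D : ModData L N J Γ) {π : V →ₗ[ℝ] U} (hπ : Function.Surjective π)
    (hker : ∀ x, π x = 0 ↔ x ∈ Submodule.span ℝ (J : Set V)) {M : Submodule ℤ U}
    (hM : ∀ u, u ∈ M ↔ ∃ x ∈ L, π x = u) : IsQuot L J Γ π M (quotGroup π Γ) where
  surj := hπ
  ker := hker
  lattice := hM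
  preserves := fun g hg p hp => Submodule.subset_span (D.perm g hg p hp)
  group := fun _ => Iff.rfl

omit [FiniteDimensional ℝ V] [DiscreteTopology L] [IsZLattice ℝ L] in
/-- An element of the group acting trivially on `J` and on the quotient is trivial. -/
theorem ModData.eq_one (D : ModData L N J Γ) {g : V ≃ₗ[ℝ] V} (hg : g ∈ Γ)
    (hJ : ∀ p ∈ J, g p = p) (hq : ∀ x, g x - x ∈ Submodule.span ℝ (J : Set V)) : g = 1 := by
  have hfix : ∀ w ∈ Submodule.span ℝ (J : Set V), g w = w := by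
    intro w hw
    induction hw using Submodule.span_induction with
    | mem w hw => exact hJ w hw
    | zero => exact map_zero g
    | add a b _ _ ha hb => rw [map_add, ha, hb]
    | smul c a _ ha => rw [map_smul, ha]
  have hpow : ∀ x, ∀ n : ℕ, (g ^ n) x = x + (n : ℝ) • (g x - x) := by
    intro x n
    induction n with
    | zero => simp
    | succ n ih =>
      rw [pow_succ', LinearEquiv.mul_apply, ih, map_add, map_smul, hfix _ (hq x)]
      push_cast
      rw [add_smul, one_smul]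
      abel
  -- the limit is in `N`
  have hlim : ∀ h ∈ Γ, (∀ x, ∀ n : ℕ, (h ^ n) x = x + (n : ℝ) • (h x - x)) → ∀ x ∈ N,
      h x - x ∈ N := by
    intro h hh hpow x hx
    have h1 : Filter.Tendsto (fun n : ℕ => (h x - x) + (1 / ((n : ℝ) + 1)) • x) Filter.atTop
        (𝓝 (h x - x)) := Pad47bbM.tendsto_add_smul _ _
    refine D.good.closed.mem_of_tendsto h1 (Filter.Eventually.of_forall fun n => ?_)
    have h2 := hpow x (n + 1)
    have h3 : (h ^ (n + 1)) x ∈ N := D.acts.map_cone _ (pow_mem hh _) x hx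
    have h4 := N.smul_mem (show (0 : ℝ) ≤ 1 / ((n : ℝ) + 1) by positivity) h3
    rw [h2, smul_add, smul_smul] at h4
    have h5 : 1 / ((n : ℝ) + 1) * ((n + 1 : ℕ) : ℝ) = 1 := by
      push_cast
      field_simp
    rw [h5, one_smul, add_comm] at h4
    exact h4
  have hinv : ∀ x, g⁻¹ x - x = -(g x - x) := by
    intro x
    have h1 : g (x - (g x - x)) = x := by
      rw [map_sub, hfix _ (hq x)]
      abel
    have h2 : g⁻¹ x = x - (g x - x) := by
      calc g⁻¹ x = g⁻¹ (g (x - (g x - x))) := by rw [h1]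
        _ = x - (g x - x) := g.symm_apply_apply _
    rw [h2]
    abel
  have hpow' : ∀ x, ∀ n : ℕ, (g⁻¹ ^ n) x = x + (n : ℝ) • (g⁻¹ x - x) := by
    intro x n
    induction n with
    | zero => simp
    | succ n ih =>
      have h1 : g⁻¹ (g⁻¹ x - x) = g⁻¹ x - x := by
        rw [hinv]
        have h2 := hfix _ (Submodule.neg_mem _ (hq x))
        calc g⁻¹ (-(g x - x)) = g⁻¹ (g (-(g x - x))) := by rw [h2]
          _ = -(g x - x) := g.symm_apply_apply _
      rw [pow_succ', LinearEquiv.mul_apply, ih, map_add, map_smul, h1]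
      push_cast
      rw [add_smul, one_smul]
      abel
  have hN : ∀ x ∈ N, g x = x := by
    intro x hx
    have h1 := hlim g hg hpow x hx
    have h2 := hlim g⁻¹ (inv_mem hg) hpow' x hx
    rw [hinv] at h2
    exact sub_eq_zero.1 (D.good.salient _ h1 h2)
  -- `N` spans
  obtain ⟨e, he⟩ := D.good.interior_nonempty
  apply LinearEquiv.ext
  intro x
  obtain ⟨δ, hδ, hball⟩ := Metric.isOpen_iff.1 isOpen_interior e he
  set t : ℝ := δ / (2 * (‖x‖ + 1)) with ht
  have ht0 : 0 < t := by positivity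
  have h1 : e + t • x ∈ interior (N : Set V) := by
    apply hball
    rw [Metric.mem_ball, dist_eq_norm, add_sub_cancel_left, norm_smul, Real.norm_eq_abs,
      abs_of_pos ht0, ht, div_mul_eq_mul_div, div_lt_iff₀ (by positivity)]
    nlinarith [norm_nonneg x]
  have h2 := hN _ (interior_subset h1)
  rw [map_add, map_smul, hN e (interior_subset he)] at h2
  have h3 := add_left_cancel h2
  have h4 := congrArg (fun y => t⁻¹ • y) h3
  simp only [smul_smul] at h4
  rw [inv_mul_cancel₀ ht0.ne', one_smul, one_smul] at h4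
  exact h4

omit [FiniteDimensional ℝ V] [DiscreteTopology L] [IsZLattice ℝ L] [FiniteDimensional ℝ U] in
/-- If the group is infinite then so is its image on the quotient. -/
theorem ModData.infinite_quot (D : ModData L N J Γ) {π : V →ₗ[ℝ] U}
    (hπ : Function.Surjective π) (hker : ∀ x, π x = 0 ↔ x ∈ Submodule.span ℝ (J : Set V))
    {M : Submodule ℤ U} (hM : ∀ u, u ∈ M ↔ ∃ x ∈ L, π x = u) [Infinite Γ] :
    Infinite (quotGroup π Γ) := by
  classical
  by_contra hcon
  rw [not_infinite_iff_finite] at hcon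
  have Q := D.isQuot hπ hker hM
  have hex : ∀ g : Γ, ∃ h : quotGroup π Γ, ∀ x, (h : U ≃ₗ[ℝ] U) (π x) = π ((g : V ≃ₗ[ℝ] V) x) := by
    intro g
    obtain ⟨h, hh, h1⟩ := Q.exists_induced g.2
    exact ⟨⟨h, hh⟩, h1⟩
  choose ρ hρ using hex
  let σ : Γ → (J → J) := fun g p => ⟨(g : V ≃ₗ[ℝ] V) p, D.perm g g.2 p p.2⟩
  obtain ⟨g₁, g₂, hne, heq⟩ := Finite.exists_ne_map_eq_of_infinite
    (fun g : Γ => (ρ g, σ g))
  have hρe : ρ g₁ = ρ g₂ := congrArg Prod.fst heq
  have hσe : σ g₁ = σ g₂ := congrArg Prod.snd heq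
  have h1 : (g₂⁻¹ * g₁ : V ≃ₗ[ℝ] V) = 1 := by
    refine D.eq_one (mul_mem (inv_mem g₂.2) g₁.2) ?_ ?_
    · intro p hp
      have h2 : (g₁ : V ≃ₗ[ℝ] V) p = (g₂ : V ≃ₗ[ℝ] V) p :=
        congrArg Subtype.val (congrFun hσe ⟨p, hp⟩)
      show (g₂ : V ≃ₗ[ℝ] V)⁻¹ ((g₁ : V ≃ₗ[ℝ] V) p) = p
      rw [h2]
      exact (g₂ : V ≃ₗ[ℝ] V).symm_apply_apply p
    · intro x
      have h2 : π ((g₁ : V ≃ₗ[ℝ] V) x - (g₂ : V ≃ₗ[ℝ] V) x) = 0 := by
        rw [map_sub, ← hρ, ← hρ, hρe, sub_self]
      have h3 := Q.map_span (inv_mem g₂.2) ((hker _).1 h2)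
      rw [map_sub] at h3
      have h4 : ((g₂ : V ≃ₗ[ℝ] V)⁻¹ : V ≃ₗ[ℝ] V) ((g₂ : V ≃ₗ[ℝ] V) x) = x :=
        (g₂ : V ≃ₗ[ℝ] V).symm_apply_apply x
      rw [h4] at h3
      exact h3
  apply hne
  apply Subtype.ext
  exact (inv_mul_eq_one.1 h1).symm

omit [FiniteDimensional ℝ V] [DiscreteTopology L] [IsZLattice ℝ L] in
/-- A power of every element fixes `J` pointwise. -/
theorem ModData.exists_fix (D : ModData L N J Γ) :
    ∃ n : ℕ, 0 < n ∧ ∀ g ∈ Γ, ∀ p ∈ J, (g ^ n) p = p := by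
  classical
  refine ⟨Fintype.card (Equiv.Perm J), Fintype.card_pos, fun g hg p hp => ?_⟩
  let f : J → J := fun q => ⟨g q, D.perm g hg q q.2⟩
  have hf : Function.Injective f := by
    intro a b hab
    exact Subtype.ext (g.injective (congrArg Subtype.val hab))
  let e : Equiv.Perm J := Equiv.ofBijective f (Finite.injective_iff_bijective.1 hf)
  have he : ∀ k : ℕ, ∀ q : J, (((e ^ k) q : J) : V) = (g ^ k) q := by
    intro k
    induction k with
    | zero => intro q; rfl
    | succ k ih =>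
      intro q
      rw [pow_succ', pow_succ', LinearEquiv.mul_apply, ← ih]
      rfl
  have h1 := he (Fintype.card (Equiv.Perm J)) ⟨p, hp⟩
  rw [pow_card_eq_one] at h1
  exact h1.symm

omit [FiniteDimensional ℝ V] [DiscreteTopology L] [IsZLattice ℝ L] in
/-- A translation by a fixed vector is trivial. -/
theorem ModData.translate (D : ModData L N J Γ) {g : V ≃ₗ[ℝ] V} (hg : g ∈ Γ) {x w : V}
    (hx : x ∈ N) (hgx : g x = x + w) (hgw : g w = w) : w = 0 := by
  have hpow : ∀ n : ℕ, (g ^ n) x = x + (n : ℝ) • w := by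
    intro n
    induction n with
    | zero => simp
    | succ n ih =>
      rw [pow_succ', LinearEquiv.mul_apply, ih, map_add, map_smul, hgx, hgw]
      push_cast
      rw [add_smul, one_smul]
      abel
  have hinvw : g⁻¹ w = w := by
    calc g⁻¹ w = g⁻¹ (g w) := by rw [hgw]
      _ = w := g.symm_apply_apply _
  have hinvx : g⁻¹ x = x - w := by
    have h1 : g (x - w) = x := by rw [map_sub, hgx, hgw]; abel
    calc g⁻¹ x = g⁻¹ (g (x - w)) := by rw [h1]
      _ = x - w := g.symm_apply_apply _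
  have hpow' : ∀ n : ℕ, (g⁻¹ ^ n) x = x + (n : ℝ) • (-w) := by
    intro n
    induction n with
    | zero => simp
    | succ n ih =>
      rw [pow_succ', LinearEquiv.mul_apply, ih, map_add, map_smul, hinvx, map_neg, hinvw]
      push_cast
      rw [add_smul, one_smul]
      abel
  have hlim : ∀ h ∈ Γ, ∀ v : V, (∀ n : ℕ, (h ^ n) x = x + (n : ℝ) • v) → v ∈ N := by
    intro h hh v hv
    have h1 : Filter.Tendsto (fun n : ℕ => v + (1 / ((n : ℝ) + 1)) • x) Filter.atTop (𝓝 v) :=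
      Pad47bbM.tendsto_add_smul _ _
    refine D.good.closed.mem_of_tendsto h1 (Filter.Eventually.of_forall fun n => ?_)
    have h2 := hv (n + 1)
    have h3 : (h ^ (n + 1)) x ∈ N := D.acts.map_cone _ (pow_mem hh _) x hx
    have h4 := N.smul_mem (show (0 : ℝ) ≤ 1 / ((n : ℝ) + 1) by positivity) h3
    rw [h2, smul_add, smul_smul] at h4
    have h5 : 1 / ((n : ℝ) + 1) * ((n + 1 : ℕ) : ℝ) = 1 := by
      push_cast
      field_simp
    rw [h5, one_smul, add_comm] at h4
    exact h4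
  exact D.good.salient _ (hlim g hg w hpow) (hlim g⁻¹ (inv_mem hg) (-w) hpow')

/-- A free abelian group of automorphisms, made to fix `J` pointwise, and its action on the
quotient. -/
theorem ModData.exists_action [Nontrivial V] (D : ModData L N J Γ) {U : Type*}
    [NormedAddCommGroup U] [NormedSpace ℝ U] [FiniteDimensional ℝ U] {π : V →ₗ[ℝ] U}
    (hπ : Function.Surjective π) (hker : ∀ x, π x = 0 ↔ x ∈ Submodule.span ℝ (J : Set V))
    {M : Submodule ℤ U} (hM : ∀ u, u ∈ M ↔ ∃ x ∈ L, π x = u) {m : ℕ}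
    (φ : Multiplicative (Fin m → ℤ) →* (V ≃ₗ[ℝ] V)) (hφ : Function.Injective φ)
    (hφΓ : ∀ k, φ k ∈ Γ) :
    ∃ (x₀ : V) (ρ : Multiplicative (Fin m → ℤ) →* (U ≃ₗ[ℝ] U)), x₀ ∈ L ∧
      x₀ ∈ interior (N : Set V) ∧ (∀ k, ∃ g ∈ Γ, ∀ x, act ρ k (π x) = π (g x)) ∧
      ∀ k, act ρ k (π x₀) = π x₀ → k = 0 := by
  obtain ⟨n, hn, hfix⟩ := D.exists_fix
  obtain ⟨x₀, hx₀L, -, hx₀⟩ := exists_lattice_interior L D.good.interior_nonempty
  let ψ : Multiplicative (Fin m → ℤ) →* (V ≃ₗ[ℝ] V) := φ.comp (powMonoidHom n)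
  have hψk : ∀ k, ψ k = φ k ^ n := fun k => map_pow φ k n
  have hψ : Function.Injective ψ := by
    rw [injective_iff_map_eq_one]
    intro k hk
    have h1 : φ (k ^ n) = 1 := hk
    have h2 : k ^ n = 1 := hφ (by rw [h1, map_one])
    have h3 : n • Multiplicative.toAdd k = 0 := h2
    have h4 : Multiplicative.toAdd k = 0 := by
      funext i
      have h5 := congrFun h3 i
      rw [Pi.smul_apply, Pi.zero_apply, nsmul_eq_mul] at h5
      rcases mul_eq_zero.1 h5 with h6 | h6
      · have : n = 0 := by exact_mod_cast h6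
        omega
      · exact h6
    exact h4
  have hψΓ : ∀ k, ψ k ∈ Γ := fun k => by rw [hψk]; exact pow_mem (hφΓ k) n
  have hψJ : ∀ k, ∀ w ∈ Submodule.span ℝ (J : Set V), ψ k w = w := by
    intro k w hw
    induction hw using Submodule.span_induction with
    | mem w hw => rw [hψk]; exact hfix _ (hφΓ k) w hw
    | zero => exact map_zero _
    | add a b _ _ ha hb => rw [map_add, ha, hb]
    | smul c a _ ha => rw [map_smul, ha]
  have Q := D.isQuot hπ hker hM
  have hex : ∀ k, ∃ h : U ≃ₗ[ℝ] U, ∀ x, h (π x) = π (ψ k x) := by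
    intro k
    obtain ⟨h, -, h1⟩ := Q.exists_induced (hψΓ k)
    exact ⟨h, h1⟩
  choose ρ0 hρ0 using hex
  let ρ : Multiplicative (Fin m → ℤ) →* (U ≃ₗ[ℝ] U) := MonoidHom.mk' ρ0 (by
    intro a b
    apply LinearEquiv.ext
    intro u
    obtain ⟨x, rfl⟩ := hπ u
    rw [hρ0, LinearEquiv.mul_apply, hρ0, hρ0, map_mul]
    rfl)
  have hρ : ∀ k : Fin m → ℤ, ∀ x, act ρ k (π x) = π (act ψ k x) := fun k x => hρ0 _ x
  refine ⟨x₀, ρ, hx₀L, hx₀, fun k => ⟨act ψ k, hψΓ _, hρ k⟩, fun k hk => ?_⟩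
  rw [hρ] at hk
  have h1 : act ψ k x₀ - x₀ ∈ Submodule.span ℝ (J : Set V) := by
    rw [← hker, map_sub, hk, sub_self]
  have h2 : act ψ k x₀ - x₀ = 0 := by
    refine D.translate (hψΓ (Multiplicative.ofAdd k)) (interior_subset hx₀)
      (w := act ψ k x₀ - x₀) ?_ (hψJ _ _ h1)
    show act ψ k x₀ = x₀ + (act ψ k x₀ - x₀)
    abel
  refine stab_trivial ψ hψ L N ?_ (fun k v hv => D.acts.map_lattice _ (hψΓ _) v hv)
    (fun k v hv => D.acts.map_cone _ (hψΓ _) v hv) hx₀ (sub_eq_zero.1 h2)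
  intro x hx hx'
  rw [D.good.closed.closure_eq] at hx hx'
  exact D.good.salient x hx hx'

end Pool.Agent.Lib.Pad47bbZ
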