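import Pool.Agent.Lib.Pad47bbZ.Data
import Pool.Agent.Lib.Pad47bbM.Van

/-!
It suffices to cover a dense set.
-/

open Set Topology NormedSpace Filter

namespace Pool.Agent.Lib.Pad47bbZ

open Pool.Agent.Lib.Pad47bb Pool.Agent.Lib.Pad47bbQ Pool.Agent.Lib.Pad47bbV
  Pool.Agent.Lib.Pad47bbB

universe u

variable {V : Type u} [NormedAddCommGroup V] [NormedSpace ℝ V] [FiniteDimensional ℝ V]
  {L : Submodule ℤ V} [DiscreteTopology L] [IsZLattice ℝ L]
  {N : PointedCone ℝ V} {J : Finset V} {Γ : Subgroup (V ≃ₗ[ℝ] V)}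

omit [DiscreteTopology L] [IsZLattice ℝ L] in
/-- The cone `cone Y + span J` is closed. -/
theorem isClosed_sumCone {Y : Finset V} (hY : ∀ y ∈ Y, y ∈ L) (hJ : ∀ p ∈ J, p ∈ L) :
    IsClosed (sumCone Y J : Set V) := by
  obtain ⟨s, -, hs⟩ := isRatPoly_sumCone L Y J hY hJ
  rw [hs]
  exact Pad47bbM.isClosed_hull_finset s

/-- If every point `x` of the interior is a limit of covered points of the interior, then it is
covered. -/
theorem ModData.covers_of_dense (D : ModData L N J Γ) (Y : Finset V)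
    (hY : ∀ y ∈ Y, y ∈ L ∧ y ∈ N)
    (h : ∀ x ∈ interior (N : Set V), ∃ u : ℕ → V, Tendsto u atTop (𝓝 x) ∧
      ∀ᶠ n in atTop, u n ∈ interior (N : Set V) →
        ∃ g ∈ Γ, ∃ y ∈ PointedCone.hull ℝ (Y : Set V),
          g (u n) - y ∈ Submodule.span ℝ (J : Set V)) : Covers N J Y Γ := by
  classical
  intro x hx
  obtain ⟨u, hu, hcov⟩ := h x hx
  obtain ⟨w, hw1, hw2, hw3⟩ := exists_ratPoly_nhds L isOpen_interior hx
  have hwN : ∀ v ∈ w, v ∈ interior (N : Set V) := by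
    intro v hv
    obtain ⟨c, hc, hcv⟩ := hw2 v hv
    have := interior_smul' hcv (inv_pos.2 hc)
    rwa [smul_smul, inv_mul_cancel₀ hc.ne', one_smul] at this
  have hfin := finite_near D.good D.acts D.perm w Y
    (fun v hv => ⟨hw1 hv, interior_subset (hwN v hv)⟩) hY
  set G := {g : V ≃ₗ[ℝ] V | g ∈ Γ ∧ ∃ y ∈ PointedCone.hull ℝ (w : Set V),
      g y ∈ interior (N : Set V) ∧ g y ∈ sumCone Y J} with hG
  -- the union of the translates
  have hclosed : IsClosed (⋃ g ∈ G, (g : V → V) ⁻¹' (sumCone Y J : Set V)) :=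
    hfin.isClosed_biUnion fun g _ =>
      (isClosed_sumCone (fun y hy => (hY y hy).1) D.comp).preimage
        (LinearMap.continuous_of_finiteDimensional (g : V →ₗ[ℝ] V))
  have hmem : ∀ᶠ n in atTop, u n ∈ ⋃ g ∈ G, (g : V → V) ⁻¹' (sumCone Y J : Set V) := by
    filter_upwards [hcov, hu.eventually (isOpen_interior.mem_nhds hx),
      hu.eventually (isOpen_interior.mem_nhds hw3)] with n h1 h2 h3
    obtain ⟨g, hg, y, hy, hgy⟩ := h1 h2
    have h4 : g (u n) ∈ sumCone Y J := mem_sumCone.2 ⟨y, hy, hgy⟩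
    exact mem_biUnion (x := g) ⟨hg, u n, interior_subset h3,
      interior_map_mem (D.acts.map_cone g hg) h2, h4⟩ h4
  have hxm := hclosed.mem_of_tendsto hu hmem
  simp only [mem_iUnion] at hxm
  obtain ⟨g, hg, hz⟩ := hxm
  obtain ⟨y, hy, hzy⟩ := mem_sumCone.1 hz
  exact ⟨g, hg.1, y, hy, hzy⟩

end Pool.Agent.Lib.Pad47bbZ
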