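import Pool.Agent.Lib.Pad47bbB.Poly
import Pool.Agent.Lib.Pad47bbM.Van

/-!
Rational polyhedral cones are finite intersections of rational half-spaces.
-/

open Set Topology

namespace Pool.Agent.Lib.Pad47bbZ

open Pool.Agent.Lib.Pad47bb Pool.Agent.Lib.Pad47bbB

variable {V : Type*} [NormedAddCommGroup V] [NormedSpace ℝ V]

/-- The functionals which are integral on `L`. -/
def dualLattice (L : Submodule ℤ V) : Submodule ℤ (V →L[ℝ] ℝ) where
  carrier := {φ | ∀ x ∈ L, ∃ n : ℤ, φ x = n}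
  add_mem' := by
    intro φ ψ hφ hψ x hx
    obtain ⟨m, hm⟩ := hφ x hx
    obtain ⟨n, hn⟩ := hψ x hx
    refine ⟨m + n, ?_⟩
    show φ x + ψ x = _
    rw [hm, hn]
    push_cast
    ring
  zero_mem' := fun x _ => ⟨0, by simp⟩
  smul_mem' := by
    intro c φ hφ x hx
    obtain ⟨m, hm⟩ := hφ x hx
    refine ⟨c * m, ?_⟩
    show (c • φ) x = _
    rw [smul_apply, hm, zsmul_eq_mul]
    push_cast
    ring

theorem mem_dualLattice {L : Submodule ℤ V} {φ : V →L[ℝ] ℝ} :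
    φ ∈ dualLattice L ↔ ∀ x ∈ L, ∃ n : ℤ, φ x = n := Iff.rfl

variable [FiniteDimensional ℝ V]

/-- Finitely many functionals integral on the lattice span the dual space. -/
theorem exists_dual_basis (L : Submodule ℤ V) [DiscreteTopology L] [IsZLattice ℝ L] :
    ∃ B : Finset (V →L[ℝ] ℝ), (∀ φ ∈ B, φ ∈ dualLattice L) ∧
      Submodule.span ℝ (B : Set (V →L[ℝ] ℝ)) = ⊤ := by
  classical
  let b₀ := Module.Free.chooseBasis ℤ L
  let b := b₀.ofZLatticeBasis ℝ L
  let η : Module.Free.ChooseBasisIndex ℤ L → V →L[ℝ] ℝ := fun i =>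
    LinearMap.toContinuousLinearMap (b.coord i)
  refine ⟨Finset.univ.image η, ?_, ?_⟩
  · intro φ hφ
    obtain ⟨i, -, rfl⟩ := Finset.mem_image.1 hφ
    intro x hx
    exact ⟨b₀.repr ⟨x, hx⟩ i, b₀.ofZLatticeBasis_repr_apply ℝ L ⟨x, hx⟩ i⟩
  · rw [eq_top_iff]
    intro φ _
    have h : φ = ∑ i, φ (b i) • η i := by
      ext x
      conv_lhs => rw [← b.sum_repr x]
      rw [map_sum, sum_apply]
      refine Finset.sum_congr rfl fun i _ => ?_
      rw [map_smul, smul_eq_mul, smul_apply, smul_eq_mul, mul_comm]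
      rfl
    rw [h]
    refine Submodule.sum_mem _ fun i _ => Submodule.smul_mem _ _ (Submodule.subset_span ?_)
    exact Finset.mem_coe.2 (Finset.mem_image_of_mem _ (Finset.mem_univ i))

/-- A rational polyhedral cone is a finite intersection of rational half-spaces. -/
theorem exists_halfSpaces {L : Submodule ℤ V} [DiscreteTopology L] [IsZLattice ℝ L]
    {P : PointedCone ℝ V} (hP : IsRatPoly L P) :
    ∃ T : Finset (V →L[ℝ] ℝ), (∀ τ ∈ T, τ ∈ dualLattice L) ∧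
      ∀ x, x ∈ P ↔ ∀ τ ∈ T, 0 ≤ τ x := by
  classical
  obtain ⟨s, hs, rfl⟩ := hP
  obtain ⟨B, hB, hBspan⟩ := exists_dual_basis L
  let ev : V → (V →L[ℝ] ℝ) →L[ℝ] ℝ := fun a => ContinuousLinearMap.apply ℝ ℝ a
  have hev : ∀ a φ, ev a φ = φ a := fun a φ => rfl
  have h1 := (isRatPoly_span (dualLattice L) B hB).inf_halfSpaces s ev (by
    intro a ha φ hφ
    rw [hev]
    exact hφ a (hs ha))
  obtain ⟨T, hTL, hT⟩ := h1
  have hmem : ∀ φ : V →L[ℝ] ℝ, φ ∈ PointedCone.hull ℝ (T : Set (V →L[ℝ] ℝ)) ↔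
      ∀ a ∈ s, 0 ≤ φ a := by
    intro φ
    rw [← hT, Submodule.mem_inf]
    have h2 : φ ∈ (Submodule.span ℝ (B : Set (V →L[ℝ] ℝ))).restrictScalars {c : ℝ // 0 ≤ c} := by
      rw [Submodule.restrictScalars_mem, hBspan]
      trivial
    simp only [h2, true_and, Submodule.mem_iInf, mem_halfSpace, hev]
  refine ⟨T, fun τ hτ => hTL hτ, fun x => ⟨fun hx τ hτ => ?_, fun hx => ?_⟩⟩
  · have h2 := (hmem τ).1 (Submodule.subset_span hτ)
    obtain ⟨c, hc, rfl⟩ := mem_hull_finset.1 hx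
    rw [map_sum]
    refine Finset.sum_nonneg fun a ha => ?_
    rw [map_smul, smul_eq_mul]
    exact mul_nonneg (hc a ha) (h2 a ha)
  · by_contra hnot
    let C : ProperCone ℝ V := ⟨PointedCone.hull ℝ (s : Set V), Pad47bbM.isClosed_hull_finset s⟩
    have hxC : x ∉ C := hnot
    obtain ⟨φ, hφ, hφx⟩ := C.hyperplane_separation_point hxC
    have h2 : φ ∈ PointedCone.hull ℝ (T : Set (V →L[ℝ] ℝ)) :=
      (hmem φ).2 fun a ha => hφ a (Submodule.subset_span ha)
    obtain ⟨c, hc, hφT⟩ := mem_hull_finset.1 h2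
    have h3 : 0 ≤ φ x := by
      rw [hφT, sum_apply]
      refine Finset.sum_nonneg fun τ hτ => ?_
      rw [smul_apply, smul_eq_mul]
      exact mul_nonneg (hc τ hτ) (hx τ hτ)
    exact absurd hφx (not_lt.2 h3)

end Pool.Agent.Lib.Pad47bbZ
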