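import Pool.Agent.Lib.Pad47bbZ.Main
import Pool.Agent.Lib.Pad47bbY.Image

/-!
Covers modulo the span of `J` and fundamental domains on the image of the cone.
-/

open Set Topology

namespace Pool.Agent.Lib.Pad47bbZ

open Pool.Agent.Lib.Pad47bb Pool.Agent.Lib.Pad47bbQ Pool.Agent.Lib.Pad47bbV
  Pool.Agent.Lib.Pad47bbB Pool.Agent.Lib.Pad47bbX Pool.Agent.Lib.Pad47bbY

universe u

variable {V : Type u} [NormedAddCommGroup V] [NormedSpace ℝ V] [FiniteDimensional ℝ V]
  {L : Submodule ℤ V} [DiscreteTopology L] [IsZLattice ℝ L]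
  {N : PointedCone ℝ V} {J : Finset V} {Γ : Subgroup (V ≃ₗ[ℝ] V)}
  {U : Type*} [NormedAddCommGroup U] [NormedSpace ℝ U] [FiniteDimensional ℝ U]
  {M : Submodule ℤ U} [DiscreteTopology M] [IsZLattice ℝ M]

/-- If the closure of the image of `N` contains no line, then a cover modulo `span J` is a
fundamental domain on the image. -/
theorem ModData.covers_iff_image (D : ModData L N J Γ) {π : V →ₗ[ℝ] U}
    (hsurj : Function.Surjective π)
    (hker : ∀ x, π x = 0 ↔ x ∈ Submodule.span ℝ (J : Set V))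
    (hM : ∀ u, u ∈ M ↔ ∃ x ∈ L, π x = u) {K' : PointedCone ℝ U}
    (hK' : ∀ u, u ∈ K' ↔ ∃ x ∈ ratHull L N, π x = u)
    (hs : ∀ u ∈ closure (K' : Set U), -u ∈ closure (K' : Set U) → u = 0)
    {G' : Subgroup (U ≃ₗ[ℝ] U)} (hG' : induced π Γ ≤ G')
    (hG'M : ∀ g ∈ G', ∀ u ∈ M, g u ∈ M) (hG'K : ∀ g ∈ G', ∀ u ∈ K', g u ∈ K') :
    (∃ Y : Finset V, (∀ y ∈ Y, y ∈ L ∧ y ∈ N) ∧ Covers N J Y Γ) ↔
      HasRPFD M G' K' ∧ ((induced π Γ).subgroupOf G').FiniteIndex := by
  classical
  have hSI := setting_image D.good D.acts hsurj hM hK' hs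
  have hS' : Setting M K' G' := ⟨hs, hSI.interior_nonempty, hG'M, hG'K⟩
  rw [← hasRPFD_subgroup_iff hG' hS']
  have hpres : ∀ g ∈ Γ, ∀ x, π x = 0 → π (g x) = 0 := by
    intro g hg x hx
    rw [hker] at hx ⊢
    exact D.map_span hg hx
  have hind := exists_induced hsurj hpres
  constructor
  · rintro ⟨Y, hY, hcov⟩
    have hYK : ∀ y ∈ Y, π y ∈ K' := fun y hy =>
      (hK' _).2 ⟨y, Submodule.subset_span ⟨(hY y hy).2, (hY y hy).1⟩, rfl⟩
    have hsL : ((Y.image π : Finset U) : Set U) ⊆ M := by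
      intro u hu
      obtain ⟨y, hy, rfl⟩ := Finset.mem_image.1 (Finset.mem_coe.1 hu)
      exact (hM _).2 ⟨y, (hY y hy).1, rfl⟩
    have hsK : ((Y.image π : Finset U) : Set U) ⊆ K' := by
      intro u hu
      obtain ⟨y, hy, rfl⟩ := Finset.mem_image.1 (Finset.mem_coe.1 hu)
      exact hYK y hy
    have hcl := closing hSI (Y.image π) hsL hsK (by
      intro u hu
      obtain ⟨x, hx, rfl⟩ := (hK' u).1 hu
      obtain ⟨w, hwL, hwK, hxw⟩ := exists_finset_of_ratHull hx
      refine ⟨w.image π, ?_, ?_, (map_hull π w).2 ⟨x, hxw, rfl⟩⟩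
      · intro v hv
        obtain ⟨y, hy, rfl⟩ := Finset.mem_image.1 (Finset.mem_coe.1 hv)
        exact (hM _).2 ⟨y, hwL hy, rfl⟩
      · intro v hv
        obtain ⟨y, hy, rfl⟩ := Finset.mem_image.1 (Finset.mem_coe.1 hv)
        exact (hK' _).2 ⟨y, hwK hy, rfl⟩) (by
      intro u hu
      -- `u` is the image of an interior point
      obtain ⟨e, he⟩ := D.good.interior_nonempty
      obtain ⟨δ, hδ, hball⟩ := Metric.isOpen_iff.1 isOpen_interior u hu
      set ε : ℝ := δ / (2 * (1 + ‖π e‖)) with hε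
      have hε0 : 0 < ε := by positivity
      have hεe : ‖ε • π e‖ < δ := by
        rw [norm_smul, Real.norm_of_nonneg hε0.le, hε, div_mul_eq_mul_div,
          div_lt_iff₀ (by positivity)]
        nlinarith [norm_nonneg (π e)]
      have h1 : u - ε • π e ∈ K' := interior_subset (hball (by
        simpa [Metric.mem_ball, dist_eq_norm, norm_sub_rev] using hεe))
      obtain ⟨x, hx, hxu⟩ := (hK' _).1 h1
      have hint : ε • e + x ∈ interior (N : Set V) :=
        interior_add_mem (interior_smul_mem he hε0) (ratHull_le hx)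
      have hπ : π (ε • e + x) = u := by
        rw [map_add, map_smul, hxu]
        abel
      obtain ⟨g, hg, y, hy, hgy⟩ := hcov _ hint
      obtain ⟨h, hh, e'⟩ := hind g hg
      refine ⟨h⁻¹, inv_mem hh, π y, (map_hull π Y).2 ⟨y, hy, rfl⟩, ?_⟩
      have h2 : π y = h u := by
        rw [← hπ, e', eq_comm, ← sub_eq_zero, ← map_sub, hker]
        exact hgy
      rw [h2]
      exact h.symm_apply_apply u)
    refine exists_fundDomain hSI
      (P₁ := PointedCone.hull ℝ ((Y.image π : Finset U) : Set U)) ⟨_, hsL, rfl⟩ ?_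
    apply Subset.antisymm
    · intro u hu
      obtain ⟨h, hh, v, hv, rfl⟩ := hcl u hu
      exact mem_iUnion₂.2 ⟨h, hh, v, hv, rfl⟩
    · intro u hu
      obtain ⟨h, hh, v, hv, rfl⟩ := mem_iUnion₂.1 hu
      exact hSI.map_cone h hh _ ((Submodule.span_le.2 hsK) hv)
  · rintro ⟨P, ⟨s, hsM, rfl⟩, hcov, -⟩
    have hsK := IsRatPoly.le_of_cover hcov
    have hlift : ∀ u ∈ s, ∃ t : Finset V, (∀ y ∈ t, y ∈ L ∧ y ∈ N) ∧
        ∃ x ∈ PointedCone.hull ℝ (t : Set V), π x = u := by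
      intro u hu
      obtain ⟨x, hx, hxu⟩ := (hK' u).1 (hsK (Submodule.subset_span hu))
      obtain ⟨t, ht, hxt⟩ := Submodule.mem_span_finite_of_mem_span hx
      exact ⟨t, fun y hy => ⟨(ht hy).2, (ht hy).1⟩, x, hxt, hxu⟩
    choose! t ht x hx hxu using hlift
    refine ⟨s.biUnion t, ?_, ?_⟩
    · intro y hy
      obtain ⟨u, hu, hyu⟩ := Finset.mem_biUnion.1 hy
      exact ht u hu y hyu
    · intro z hz
      have h1 : π z ∈ (K' : Set U) := (hK' _).2 ⟨z, int_ratHull L N hz, rfl⟩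
      rw [hcov] at h1
      obtain ⟨h, hh, v, hv, hvz⟩ := mem_iUnion₂.1 h1
      obtain ⟨g, hg, e⟩ := mem_induced.1 hh
      obtain ⟨c, hc, hvc⟩ := mem_hull_finset.1 hv
      refine ⟨g⁻¹, inv_mem hg, ∑ u ∈ s, c u • x u, ?_, ?_⟩
      · refine Submodule.sum_mem _ fun u hu => ?_
        refine PointedCone.smul_mem _ (hc u hu) ?_
        refine Submodule.span_mono ?_ (hx u hu)
        exact Finset.coe_subset.2 (Finset.subset_biUnion_of_mem t hu)
      · rw [← hker, map_sub, sub_eq_zero]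
        have h2 : π (∑ u ∈ s, c u • x u) = v := by
          rw [map_sum, hvc]
          refine Finset.sum_congr rfl fun u hu => ?_
          rw [map_smul, hxu u hu]
        rw [h2]
        obtain ⟨y, hy⟩ := hsurj v
        have h3 : π (g y) = π z := by rw [← e, hy]; exact hvz
        have h4 := hpres g⁻¹ (inv_mem hg) (g y - z) (by rw [map_sub, h3, sub_self])
        rw [map_sub, map_sub, sub_eq_zero] at h4
        rw [← h4, ← hy]
        exact congrArg π (g.symm_apply_apply y)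

end Pool.Agent.Lib.Pad47bbZ
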