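import Pool.Agent.Lib.Pad47bbZ.Cover

/-!
The cone conjecture modulo a finite set of lattice vectors permuted by the group.
-/

open Set Topology NormedSpace Filter

namespace Pool.Agent.Lib.Pad47bbZ

open Pool.Agent.Lib.Pad47bb Pool.Agent.Lib.Pad47bbQ Pool.Agent.Lib.Pad47bbV
  Pool.Agent.Lib.Pad47bbB

universe u

variable {V : Type u} [NormedAddCommGroup V] [NormedSpace ℝ V] [FiniteDimensional ℝ V]
  {L : Submodule ℤ V} [DiscreteTopology L] [IsZLattice ℝ L]
  {N : PointedCone ℝ V} {J : Finset V} {Γ : Subgroup (V ≃ₗ[ℝ] V)}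

/-- The interior of `N` is in the cone generated by the lattice points. -/
theorem int_ratHull (L : Submodule ℤ V) [DiscreteTopology L] [IsZLattice ℝ L]
    (N : PointedCone ℝ V) : interior (N : Set V) ⊆ ratHull L N := by
  intro x hx
  obtain ⟨u, hu, hxu⟩ := Pad47bbM.exists_hull_interior (L := L) hx
  refine (Submodule.span_mono ?_) hxu
  intro y hy
  exact ⟨interior_subset (hu y hy).2, (hu y hy).1⟩

/-- From a cover to generators of a cone whose translates cover the cone generated by the lattice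
points. -/
theorem ModData.exists_gen (D : ModData L N J Γ) (Y : Finset V)
    (hP : IsRatPoly L (N ⊓ sumCone Y J)) (hcov : Covers N J Y Γ) :
    ∃ s : Finset V, (s : Set V) ⊆ L ∧ (s : Set V) ⊆ ratHull L N ∧
      (∀ z ∈ PointedCone.hull ℝ (s : Set V), z ∈ sumCone Y J) ∧
      ∀ x ∈ ratHull L N, ∃ g ∈ Γ, ∃ y ∈ PointedCone.hull ℝ (s : Set V), g y = x := by
  obtain ⟨s, hsL, hs⟩ := hP
  have hsN : ∀ a ∈ s, a ∈ N := fun a ha => by
    have : a ∈ N ⊓ sumCone Y J := by rw [hs]; exact Submodule.subset_span ha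
    exact this.1
  have hS := setting_ratHull D.good D.acts (int_ratHull L N)
  have hsK : (s : Set V) ⊆ ratHull L N := fun a ha =>
    Submodule.subset_span ⟨hsN a ha, hsL ha⟩
  refine ⟨s, hsL, hsK, fun z hz => ?_, ?_⟩
  · rw [← hs] at hz
    exact hz.2
  · exact closing hS s hsL hsK (fun x hx => exists_finset_of_ratHull hx)
      (fun x hx => by
        have hxN : x ∈ interior (N : Set V) := interior_mono (fun y hy => ratHull_le hy) hx
        obtain ⟨g, hg, y, hy, hw⟩ := hcov x hxN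
        refine ⟨g⁻¹, inv_mem hg, g x, ?_, g.symm_apply_apply x⟩
        rw [← hs]
        exact ⟨D.acts.map_cone g hg x (interior_subset hxN), mem_sumCone.2 ⟨y, hy, hw⟩⟩)

/-- A cover modulo `span J` gives a fundamental domain. -/
theorem ModData.hasRPFD_ratHull (D : ModData L N J Γ) (Y : Finset V)
    (hP : IsRatPoly L (N ⊓ sumCone Y J)) (hcov : Covers N J Y Γ) :
    HasRPFD L Γ (ratHull L N) := by
  obtain ⟨s, hsL, hsK, -, hs⟩ := D.exists_gen Y hP hcov
  have hS := setting_ratHull D.good D.acts (int_ratHull L N)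
  refine exists_fundDomain hS (P₁ := PointedCone.hull ℝ (s : Set V)) ⟨s, hsL, rfl⟩ ?_
  apply Subset.antisymm
  · intro x hx
    obtain ⟨g, hg, y, hy, rfl⟩ := hs x hx
    exact mem_biUnion hg ⟨y, hy, rfl⟩
  · intro x hx
    simp only [mem_iUnion] at hx
    obtain ⟨g, hg, y, hy, rfl⟩ := hx
    exact ratHull_map D.acts hg ((Submodule.span_le.2 fun a ha => hsK ha) hy)

omit [FiniteDimensional ℝ V] [DiscreteTopology L] [IsZLattice ℝ L] in
/-- A cone with a fundamental domain is covered by a finitely generated cone. -/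
theorem exists_of_hasRPFD {M : PointedCone ℝ V} (hM1 : interior (N : Set V) ⊆ M) (hM2 : M ≤ N)
    (h : HasRPFD L Γ M) : ∃ t : Finset V, (∀ y ∈ t, y ∈ L ∧ y ∈ N) ∧
      ∀ x ∈ interior (N : Set V), ∃ g ∈ Γ, ∃ y ∈ PointedCone.hull ℝ (t : Set V), g y = x := by
  obtain ⟨P, ⟨t, htL, rfl⟩, hcov, -⟩ := h
  refine ⟨t, fun y hy => ⟨htL hy, hM2 ?_⟩, fun x hx => ?_⟩
  · show y ∈ (M : Set V)
    rw [hcov]
    exact mem_biUnion (one_mem Γ) ⟨y, Submodule.subset_span hy, rfl⟩
  · have hx' := hM1 hx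
    rw [hcov] at hx'
    simp only [mem_iUnion] at hx'
    obtain ⟨g, hg, y, hy, hgy⟩ := hx'
    exact ⟨g, hg, y, hy, hgy⟩

/-- The cone conjecture modulo `span J`. -/
theorem ModData.hasRPFD_iff [Nontrivial V] (D : ModData L N J Γ) {M : PointedCone ℝ V}
    (hM1 : interior (N : Set V) ⊆ M) (hM2 : M ≤ N) :
    HasRPFD L Γ M ↔ M = ratHull L N ∧
      (∃ Y : Finset V, (∀ y ∈ Y, y ∈ L ∧ y ∈ N) ∧ Covers N J Y Γ) ∧
      ∀ S : Finset V, (∀ y ∈ S, y ∈ L ∧ y ∈ N) → IsRatPoly L (N ⊓ sumCone S J) := by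
  constructor
  · intro h
    obtain ⟨t, ht, hcov⟩ := exists_of_hasRPFD hM1 hM2 h
    refine ⟨((Pad47bbV.hasRPFD_iff D.good D.acts hM1 hM2).1 h).1, ⟨t, ht, fun x hx => ?_⟩,
      fun S hS => isRatPoly_of_cover D.good D.acts D.comp D.perm ht hcov hS⟩
    obtain ⟨g, hg, y, hy, rfl⟩ := hcov x hx
    refine ⟨g⁻¹, inv_mem hg, y, hy, ?_⟩
    have h1 : g⁻¹ (g y) = y := g.symm_apply_apply y
    rw [h1, sub_self]
    exact Submodule.zero_mem _
  · rintro ⟨rfl, ⟨Y, hY, hcov⟩, hpoly⟩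
    exact D.hasRPFD_ratHull Y (hpoly Y hY) hcov

/-- The cone conjecture modulo `span J`, if there is a cover by lattice points of the interior. -/
theorem ModData.hasRPFD_iff_of_interior [Nontrivial V] (D : ModData L N J Γ) {M : PointedCone ℝ V}
    (hM1 : interior (N : Set V) ⊆ M) (hM2 : M ≤ N) {Y : Finset V}
    (hY : ∀ y ∈ Y, y ∈ L ∧ y ∈ interior (N : Set V)) (hcov : Covers N J Y Γ) :
    HasRPFD L Γ M ↔ M ≤ ratHull L N ∧
      (∀ x ∈ L, x ∈ N → (x ∈ Submodule.span ℝ (J : Set V) ∨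
        ∃ y ∈ interior (N : Set V), x - y ∈ Submodule.span ℝ (J : Set V)) → x ∈ M) ∧
      ∀ S : Finset V, (∀ y ∈ S, y ∈ L ∧ y ∈ interior (N : Set V)) →
        IsRatPoly L (N ⊓ sumCone S J) := by
  constructor
  · intro h
    obtain ⟨h1, -, h3⟩ := (D.hasRPFD_iff hM1 hM2).1 h
    refine ⟨h1.le, fun x hxL hxN _ => ?_, fun S hS => h3 S fun y hy =>
      ⟨(hS y hy).1, interior_subset (hS y hy).2⟩⟩
    rw [h1]
    exact Submodule.subset_span ⟨hxN, hxL⟩
  · rintro ⟨h1, h2, h3⟩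
    have hP := h3 Y hY
    have hM : M = ratHull L N := by
      apply le_antisymm h1
      refine Submodule.span_le.2 ?_
      rintro x ⟨hxN, hxL⟩
      obtain ⟨s, -, -, hsum, hs⟩ := D.exists_gen Y hP hcov
      obtain ⟨g, hg, z, hz, rfl⟩ := hs x (Submodule.subset_span ⟨hxN, hxL⟩)
      obtain ⟨y, hy, hw⟩ := mem_sumCone.1 (hsum z hz)
      refine h2 _ hxL hxN ?_
      rcases hull_interior (fun y hy => (hY y hy).2) hy with rfl | hy
      · left
        rw [sub_zero] at hw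
        exact D.map_span hg hw
      · right
        refine ⟨g y, interior_map_mem (D.acts.map_cone g hg) hy, ?_⟩
        rw [← map_sub]
        exact D.map_span hg hw
    rw [hM]
    exact D.hasRPFD_ratHull Y hP hcov

end Pool.Agent.Lib.Pad47bbZ
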