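import Pool.Agent.Lib.Pad47bbB.Plus

/-!
The Siegel property modulo a subspace which is fixed pointwise.
-/

open Set Topology

namespace Pool.Agent.Lib.Pad47bbZ

open Pool.Agent.Lib.Pad47bb Pool.Agent.Lib.Pad47bbQ Pool.Agent.Lib.Pad47bbV
  Pool.Agent.Lib.Pad47bbB

variable {V : Type*} [NormedAddCommGroup V] [NormedSpace ℝ V]

/-- The elements `g` of `Γ` which fix `W` pointwise and for which `g (cone t) + W` and `cone s + W`
have a common point in the interior of `N`. -/
def Meets (N : PointedCone ℝ V) (Γ : Subgroup (V ≃ₗ[ℝ] V)) (t s : Finset V)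
    (W : Submodule ℝ V) : Set (V ≃ₗ[ℝ] V) :=
  {g | g ∈ Γ ∧ (∀ w ∈ W, g w = w) ∧ ∃ q ∈ interior (N : Set V),
    (∃ y ∈ PointedCone.hull ℝ (t : Set V), q - g y ∈ W) ∧
      ∃ z ∈ PointedCone.hull ℝ (s : Set V), q - z ∈ W}

variable [FiniteDimensional ℝ V] {L : Submodule ℤ V} [DiscreteTopology L] [IsZLattice ℝ L]

omit [FiniteDimensional ℝ V] [DiscreteTopology L] [IsZLattice ℝ L] in
theorem apply_mul_inv (g h : V ≃ₗ[ℝ] V) (x : V) : (g * h⁻¹) (h x) = g x := by
  show g (h.symm (h x)) = g x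
  rw [h.symm_apply_apply]

omit [FiniteDimensional ℝ V] [DiscreteTopology L] [IsZLattice ℝ L] in
theorem fixes_sup {W : Submodule ℝ V} {a : V} {h : V ≃ₗ[ℝ] V} (hW : ∀ w ∈ W, h w = w)
    (ha : h a = a) : ∀ w ∈ W ⊔ Submodule.span ℝ {a}, h w = w := by
  intro w hw
  obtain ⟨x, hx, y, hy, rfl⟩ := Submodule.mem_sup.1 hw
  obtain ⟨r, rfl⟩ := Submodule.mem_span_singleton.1 hy
  rw [map_add, map_smul, hW x hx, ha]

omit [FiniteDimensional ℝ V] [DiscreteTopology L] [IsZLattice ℝ L] in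
/-- The basic estimate. -/
theorem estimate {N : PointedCone ℝ V} {Γ : Subgroup (V ≃ₗ[ℝ] V)} (hA : Acts L N Γ)
    {f : V →L[ℝ] ℝ} (hf : ∀ x ∈ N, 0 ≤ f x)
    {t s : Finset V} (ht : ∀ y ∈ t, y ∈ N) (hs : ∀ y ∈ s, y ∈ N)
    {c d : V → ℝ} (hc : ∀ a ∈ t, 0 ≤ c a) (hd : ∀ a ∈ s, 0 ≤ d a)
    {g : V ≃ₗ[ℝ] V} (hg : g ∈ Γ)
    (hw : g (g (∑ a ∈ t, c a • a) - ∑ a ∈ s, d a • a) = g (∑ a ∈ t, c a • a) - ∑ a ∈ s, d a • a) :
    ((∀ a ∈ t, c a = 0) ∧ ∀ a ∈ s, d a = 0) ∨
      (∃ a ∈ t, f (g a) ≤ ∑ a ∈ t, f a + ∑ a ∈ s, f a) ∨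
      ∃ a ∈ s, f (g⁻¹ a) ≤ ∑ a ∈ t, f a + ∑ a ∈ s, f a := by
  classical
  set p := ∑ a ∈ t, c a • a with hp
  set z := ∑ a ∈ s, d a • a with hz
  have hpN : p ∈ N := N.sum_mem fun a ha => PointedCone.smul_mem N (hc a ha) (ht a ha)
  have hzN : z ∈ N := N.sum_mem fun a ha => PointedCone.smul_mem N (hd a ha) (hs a ha)
  have hx : g p ∈ N := hA.map_cone g hg p hpN
  have hy : g⁻¹ z ∈ N := hA.map_cone _ (inv_mem hg) z hzN
  -- `g p + g⁻¹ z = p + z`
  have hsum : g p + g⁻¹ z = p + z := by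
    have h1 : g (p + z) = g (g p + g⁻¹ z) := by
      have h2 : g (g⁻¹ z) = z := g.apply_symm_apply z
      have h3 : g (g p) - g z = g p - z := by rw [← map_sub]; exact hw
      rw [map_add, map_add, h2]
      have h4 : g (g p) = g p - z + g z := by rw [← h3]; abel
      rw [h4]
      abel
    exact (g.injective h1).symm
  have hfsum : f (g p) + f (g⁻¹ z) = f p + f z := by rw [← map_add, hsum, map_add]
  have hft : ∀ a ∈ t, 0 ≤ f a := fun a ha => hf a (ht a ha)
  have hfs : ∀ a ∈ s, 0 ≤ f a := fun a ha => hf a (hs a ha)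
  by_cases hzero : (∀ a ∈ t, c a = 0) ∧ ∀ a ∈ s, d a = 0
  · exact Or.inl hzero
  right
  -- the largest coefficient
  obtain ⟨μ, hμ0, hct, hds, hmax⟩ : ∃ μ : ℝ, 0 < μ ∧ (∀ a ∈ t, c a ≤ μ) ∧ (∀ a ∈ s, d a ≤ μ) ∧
      ((∃ a ∈ t, c a = μ) ∨ ∃ a ∈ s, d a = μ) := by
    set S : Finset ℝ := t.image c ∪ s.image d with hS
    have hne : S.Nonempty := by
      by_contra hcon
      rw [Finset.not_nonempty_iff_eq_empty, hS, Finset.union_eq_empty, Finset.image_eq_empty,
        Finset.image_eq_empty] at hcon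
      exact hzero ⟨by simp [hcon.1], by simp [hcon.2]⟩
    have hmem := S.max'_mem hne
    have hct : ∀ a ∈ t, c a ≤ S.max' hne := fun a ha =>
      S.le_max' _ (Finset.mem_union_left _ (Finset.mem_image_of_mem c ha))
    have hds : ∀ a ∈ s, d a ≤ S.max' hne := fun a ha =>
      S.le_max' _ (Finset.mem_union_right _ (Finset.mem_image_of_mem d ha))
    refine ⟨S.max' hne, ?_, hct, hds, ?_⟩
    · by_contra hcon
      rw [not_lt] at hcon
      exact hzero ⟨fun a ha => le_antisymm ((hct a ha).trans hcon) (hc a ha),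
        fun a ha => le_antisymm ((hds a ha).trans hcon) (hd a ha)⟩
    · rcases Finset.mem_union.1 hmem with h | h
      · obtain ⟨a, ha, he⟩ := Finset.mem_image.1 h
        exact Or.inl ⟨a, ha, he⟩
      · obtain ⟨a, ha, he⟩ := Finset.mem_image.1 h
        exact Or.inr ⟨a, ha, he⟩
  have hbound : f p + f z ≤ μ * (∑ a ∈ t, f a + ∑ a ∈ s, f a) := by
    rw [hp, hz, map_sum, map_sum, mul_add, Finset.mul_sum, Finset.mul_sum]
    refine add_le_add (Finset.sum_le_sum fun a ha => ?_) (Finset.sum_le_sum fun a ha => ?_)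
    · rw [map_smul, smul_eq_mul]
      exact mul_le_mul_of_nonneg_right (hct a ha) (hft a ha)
    · rw [map_smul, smul_eq_mul]
      exact mul_le_mul_of_nonneg_right (hds a ha) (hfs a ha)
  rcases hmax with ⟨a, ha, he⟩ | ⟨a, ha, he⟩
  · refine Or.inl ⟨a, ha, ?_⟩
    have h1 : μ * f (g a) ≤ f (g p) := by
      rw [hp, map_sum, map_sum]
      have h2 : ∀ b ∈ t, 0 ≤ f (g (c b • b)) := fun b hb => by
        rw [map_smul, map_smul, smul_eq_mul]
        exact mul_nonneg (hc b hb) (hf _ (hA.map_cone g hg b (ht b hb)))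
      have h3 := Finset.single_le_sum h2 ha
      rwa [map_smul, map_smul, smul_eq_mul, he] at h3
    have h4 : μ * f (g a) ≤ μ * (∑ a ∈ t, f a + ∑ a ∈ s, f a) := by
      have := hf _ hy
      linarith
    exact le_of_mul_le_mul_left h4 hμ0
  · refine Or.inr ⟨a, ha, ?_⟩
    have h1 : μ * f (g⁻¹ a) ≤ f (g⁻¹ z) := by
      rw [hz, map_sum, map_sum]
      have h2 : ∀ b ∈ s, 0 ≤ f (g⁻¹ (d b • b)) := fun b hb => by
        rw [map_smul, map_smul, smul_eq_mul]
        exact mul_nonneg (hd b hb) (hf _ (hA.map_cone _ (inv_mem hg) b (hs b hb)))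
      have h3 := Finset.single_le_sum h2 ha
      rwa [map_smul, map_smul, smul_eq_mul, he] at h3
    have h4 : μ * f (g⁻¹ a) ≤ μ * (∑ a ∈ t, f a + ∑ a ∈ s, f a) := by
      have := hf _ hx
      linarith
    exact le_of_mul_le_mul_left h4 hμ0

/-- The Siegel property modulo a subspace fixed pointwise. -/
theorem finite_meets {N : PointedCone ℝ V} (hN : Good N) {Γ : Subgroup (V ≃ₗ[ℝ] V)}
    (hA : Acts L N Γ) : ∀ (n : ℕ) (t s : Finset V) (W : Submodule ℝ V), t.card + s.card ≤ n →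
      (∀ y ∈ t, y ∈ L ∧ y ∈ N) → (∀ y ∈ s, y ∈ L ∧ y ∈ N) → (Meets N Γ t s W).Finite := by
  classical
  have hcl : closure (N : Set V) = N := hN.closed.closure_eq
  obtain ⟨f, hf⟩ := exists_pos N (by rw [hcl]; exact fun x hx hx' => hN.salient x hx hx')
  obtain ⟨ε, hε, hεf⟩ := exists_bound N f hf
  have hf0 : ∀ x ∈ N, 0 ≤ f x := by
    intro x hx
    by_cases hx0 : x = 0
    · rw [hx0, map_zero]
    · exact (hf x (subset_closure hx) hx0).le
  have hfinF : ∀ C : ℝ, {v : V | (v ∈ L ∧ v ∈ N) ∧ f v ≤ C}.Finite := by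
    intro C
    refine (finite_of_bounded L (C / ε)).subset ?_
    rintro v ⟨⟨hvL, hvN⟩, hv⟩
    refine ⟨hvL, ?_⟩
    rw [le_div_iff₀ hε, mul_comm]
    exact (hεf v (subset_closure hvN)).trans hv
  intro n
  induction n with
  | zero =>
    intro t s W hcard ht hs
    have ht0 : t = ∅ := Finset.card_eq_zero.1 (by omega)
    by_cases hW : ∃ q ∈ W, q ∈ interior (N : Set V)
    · obtain ⟨q, hqW, hq⟩ := hW
      refine (finite_le L N (Γ : Set (V ≃ₗ[ℝ] V)) hA.map_lattice hA.map_cone f hf q hq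
        (f q)).subset ?_
      rintro g ⟨hg, hgW, -⟩
      exact ⟨hg, by rw [hgW q hqW]⟩
    · convert Set.finite_empty
      rw [Set.eq_empty_iff_forall_notMem]
      rintro g ⟨hg, hgW, q, hq, ⟨y, hy, hqy⟩, -⟩
      rw [ht0, Finset.coe_empty] at hy
      have hy0 : y = 0 := by
        have : PointedCone.hull ℝ (∅ : Set V) = ⊥ := Submodule.span_empty
        rw [this] at hy
        exact (Submodule.mem_bot _).1 hy
      rw [hy0, map_zero, sub_zero] at hqy
      exact hW ⟨q, hqy, hq⟩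
  | succ n ih =>
    intro t s W hcard ht hs
    set C : ℝ := ∑ a ∈ t, f a + ∑ a ∈ s, f a with hC
    set F := (hfinF C).toFinset with hF
    have hmemF : ∀ v, v ∈ L → v ∈ N → f v ≤ C → v ∈ F := fun v h1 h2 h3 => by
      rw [hF, Set.Finite.mem_toFinset]
      exact ⟨⟨h1, h2⟩, h3⟩
    have hF' : ∀ v ∈ F, v ∈ L ∧ v ∈ N := fun v hv => by
      rw [hF, Set.Finite.mem_toFinset] at hv
      exact hv.1
    -- the three parts
    have hA0 : {g : V ≃ₗ[ℝ] V | g ∈ Γ ∧ (∀ w ∈ W, g w = w) ∧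
        ∃ q ∈ W, q ∈ interior (N : Set V)}.Finite := by
      by_cases hW : ∃ q ∈ W, q ∈ interior (N : Set V)
      · obtain ⟨q, hqW, hq⟩ := hW
        refine (finite_le L N (Γ : Set (V ≃ₗ[ℝ] V)) hA.map_lattice hA.map_cone f hf q hq
          (f q)).subset ?_
        rintro g ⟨hg, hgW, -⟩
        exact ⟨hg, by rw [hgW q hqW]⟩
      · convert Set.finite_empty
        rw [Set.eq_empty_iff_forall_notMem]
        rintro g ⟨-, -, h⟩
        exact hW h
    have hA1 : ∀ a ∈ t, ∀ b : V, {g | g ∈ Meets N Γ t s W ∧ g a = b}.Finite := by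
      intro a ha b
      rcases Set.eq_empty_or_nonempty {g | g ∈ Meets N Γ t s W ∧ g a = b} with h | ⟨g₀, hg₀, hg₀a⟩
      · rw [h]
        exact Set.finite_empty
      have h1 := ih ((t.erase a).image g₀) s (W ⊔ Submodule.span ℝ {b}) (by
          have h2 := Finset.card_image_le (s := t.erase a) (f := g₀)
          rw [Finset.card_erase_of_mem ha] at h2
          have h3 : 0 < t.card := Finset.card_pos.2 ⟨a, ha⟩
          omega) (by
          intro y hy
          obtain ⟨y', hy', rfl⟩ := Finset.mem_image.1 hy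
          have h2 := ht y' (Finset.mem_of_mem_erase hy')
          exact ⟨hA.map_lattice g₀ hg₀.1 y' h2.1, hA.map_cone g₀ hg₀.1 y' h2.2⟩) hs
      refine ((h1.image (fun h : V ≃ₗ[ℝ] V => h * g₀)).subset ?_)
      rintro g ⟨⟨hg, hgW, q, hq, ⟨y, hy, hqy⟩, z, hz, hqz⟩, hga⟩
      refine ⟨g * g₀⁻¹, ⟨mul_mem hg (inv_mem hg₀.1), ?_, q, hq, ?_, z, hz, ?_⟩, by group⟩
      · refine fixes_sup (fun w hw => ?_) ?_
        · have h2 : g₀⁻¹ w = w := by
            have h3 : g₀⁻¹ (g₀ w) = w := g₀.symm_apply_apply w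
            rwa [hg₀.2.1 w hw] at h3
          show g (g₀⁻¹ w) = w
          rw [h2, hgW w hw]
        · have h2 := apply_mul_inv g g₀ a
          rwa [hg₀a, hga] at h2
      · obtain ⟨c, hc, rfl⟩ := mem_hull_finset.1 hy
        refine ⟨g₀ (∑ i ∈ t.erase a, c i • i), ?_, ?_⟩
        · rw [map_sum]
          refine Submodule.sum_mem _ fun i hi => ?_
          rw [map_smul]
          exact PointedCone.smul_mem _ (hc i (Finset.mem_of_mem_erase hi))
            (Submodule.subset_span (Finset.mem_coe.2 (Finset.mem_image_of_mem g₀ hi)))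
        · rw [apply_mul_inv]
          have h2 : ∑ i ∈ t, c i • i = ∑ i ∈ t.erase a, c i • i + c a • a := by
            rw [Finset.sum_erase_add _ _ ha]
          rw [h2, map_add, map_smul, hga] at hqy
          have h3 : q - g (∑ i ∈ t.erase a, c i • i) =
              (q - (g (∑ i ∈ t.erase a, c i • i) + c a • b)) + c a • b := by abel
          rw [h3]
          exact Submodule.add_mem_sup hqy
            (Submodule.smul_mem _ _ (Submodule.mem_span_singleton_self b))
      · exact Submodule.mem_sup_left hqz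
    have hA2 : ∀ a ∈ s, ∀ b : V, {g | g ∈ Meets N Γ t s W ∧ g b = a}.Finite := by
      intro a ha b
      rcases Set.eq_empty_or_nonempty {g | g ∈ Meets N Γ t s W ∧ g b = a} with h | ⟨g₀, hg₀, hg₀b⟩
      · rw [h]
        exact Set.finite_empty
      have h1 := ih (t.image g₀) (s.erase a) (W ⊔ Submodule.span ℝ {a}) (by
          have h2 := Finset.card_image_le (s := t) (f := g₀)
          have h4 := Finset.card_erase_of_mem ha
          have h3 : 0 < s.card := Finset.card_pos.2 ⟨a, ha⟩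
          omega) (by
          intro y hy
          obtain ⟨y', hy', rfl⟩ := Finset.mem_image.1 hy
          have h2 := ht y' hy'
          exact ⟨hA.map_lattice g₀ hg₀.1 y' h2.1, hA.map_cone g₀ hg₀.1 y' h2.2⟩)
          (fun y hy => hs y (Finset.mem_of_mem_erase hy))
      refine ((h1.image (fun h : V ≃ₗ[ℝ] V => h * g₀)).subset ?_)
      rintro g ⟨⟨hg, hgW, q, hq, ⟨y, hy, hqy⟩, z, hz, hqz⟩, hgb⟩
      refine ⟨g * g₀⁻¹, ⟨mul_mem hg (inv_mem hg₀.1), ?_, q, hq, ?_, ?_⟩, by group⟩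
      · refine fixes_sup (fun w hw => ?_) ?_
        · have h2 : g₀⁻¹ w = w := by
            have h3 : g₀⁻¹ (g₀ w) = w := g₀.symm_apply_apply w
            rwa [hg₀.2.1 w hw] at h3
          show g (g₀⁻¹ w) = w
          rw [h2, hgW w hw]
        · have h2 := apply_mul_inv g g₀ b
          rwa [hg₀b, hgb] at h2
      · refine ⟨g₀ y, ?_, ?_⟩
        · obtain ⟨c, hc, rfl⟩ := mem_hull_finset.1 hy
          rw [map_sum]
          refine Submodule.sum_mem _ fun i hi => ?_
          rw [map_smul]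
          exact PointedCone.smul_mem _ (hc i hi)
            (Submodule.subset_span (Finset.mem_coe.2 (Finset.mem_image_of_mem g₀ hi)))
        · rw [apply_mul_inv]
          exact Submodule.mem_sup_left hqy
      · obtain ⟨d, hd, rfl⟩ := mem_hull_finset.1 hz
        refine ⟨∑ i ∈ s.erase a, d i • i, ?_, ?_⟩
        · refine Submodule.sum_mem _ fun i hi => ?_
          exact PointedCone.smul_mem _ (hd i (Finset.mem_of_mem_erase hi))
            (Submodule.subset_span (Finset.mem_coe.2 hi))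
        · have h2 : ∑ i ∈ s, d i • i = ∑ i ∈ s.erase a, d i • i + d a • a := by
            rw [Finset.sum_erase_add _ _ ha]
          rw [h2] at hqz
          have h3 : q - ∑ i ∈ s.erase a, d i • i =
              (q - (∑ i ∈ s.erase a, d i • i + d a • a)) + d a • a := by abel
          rw [h3]
          exact Submodule.add_mem_sup hqz
            (Submodule.smul_mem _ _ (Submodule.mem_span_singleton_self a))
    refine ((hA0.union ((t.finite_toSet.biUnion fun a ha => F.finite_toSet.biUnion fun b _ =>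
      hA1 a ha b).union (s.finite_toSet.biUnion fun a ha => F.finite_toSet.biUnion fun b _ =>
      hA2 a ha b))).subset ?_)
    intro g hgM
    obtain ⟨hg, hgW, q, hq, ⟨y, hy, hqy⟩, z, hz, hqz⟩ := id hgM
    obtain ⟨c, hc, rfl⟩ := mem_hull_finset.1 hy
    obtain ⟨d, hd, rfl⟩ := mem_hull_finset.1 hz
    have hw : g (∑ a ∈ t, c a • a) - ∑ a ∈ s, d a • a ∈ W := by
      have h1 := W.sub_mem hqz hqy
      have h2 : q - ∑ i ∈ s, d i • i - (q - g (∑ i ∈ t, c i • i)) =
        g (∑ a ∈ t, c a • a) - ∑ a ∈ s, d a • a := by abel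
      rwa [h2] at h1
    rcases estimate hA hf0 (fun y hy => (ht y hy).2) (fun y hy => (hs y hy).2) hc hd hg
      (hgW _ hw) with h | ⟨a, ha, h⟩ | ⟨a, ha, h⟩
    · left
      refine ⟨hg, hgW, q, ?_, hq⟩
      have h1 : ∑ i ∈ s, d i • i = 0 :=
        Finset.sum_eq_zero fun i hi => by rw [h.2 i hi, zero_smul]
      rwa [h1, sub_zero] at hqz
    · right; left
      refine mem_biUnion ha (mem_biUnion (Finset.mem_coe.2 (hmemF (g a) ?_ ?_ h)) ⟨hgM, rfl⟩)
      · exact hA.map_lattice g hg a (ht a ha).1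
      · exact hA.map_cone g hg a (ht a ha).2
    · right; right
      refine mem_biUnion ha (mem_biUnion (Finset.mem_coe.2 (hmemF (g⁻¹ a) ?_ ?_ h)) ⟨hgM, ?_⟩)
      · exact hA.map_lattice _ (inv_mem hg) a (hs a ha).1
      · exact hA.map_cone _ (inv_mem hg) a (hs a ha).2
      · exact g.apply_symm_apply a

end Pool.Agent.Lib.Pad47bbZ
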