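import Pool.Agent.Lib.Pad47bbZ.Main
import Pool.Agent.Lib.Pad47bbZ.Half

/-!
A cone which is covered and rational polyhedral modulo the span of a finite set of lattice vectors
permuted by the group is cut out by functionals which vanish on this span and by finitely many
orbits of integral functionals.
-/

open Set Topology Filter

namespace Pool.Agent.Lib.Pad47bbZ

open Pool.Agent.Lib.Pad47bb Pool.Agent.Lib.Pad47bbQ Pool.Agent.Lib.Pad47bbV
  Pool.Agent.Lib.Pad47bbB

section general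

variable {V : Type*} [NormedAddCommGroup V] [NormedSpace ℝ V]

/-- From a point of the interior one can move a little in any direction. -/
theorem exists_add_smul_mem {R : Set V} {q : V} (hq : q ∈ interior R) (y : V) :
    ∃ ε : ℝ, 0 < ε ∧ q + ε • y ∈ R := by
  have hc : Continuous fun ε : ℝ => q + ε • y := by fun_prop
  have h1 : (fun ε : ℝ => q + ε • y) ⁻¹' interior R ∈ 𝓝 (0 : ℝ) := by
    apply (isOpen_interior.preimage hc).mem_nhds
    show q + (0 : ℝ) • y ∈ interior R
    rwa [zero_smul, add_zero]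
  obtain ⟨δ, hδ, hball⟩ := Metric.mem_nhds_iff.1 h1
  refine ⟨δ / 2, by positivity, interior_subset (hball ?_)⟩
  rw [Metric.mem_ball, dist_eq_norm, sub_zero, Real.norm_of_nonneg (by positivity)]
  linarith

/-- If `N` meets `R` in the cone defined by finitely many functionals, then a point of the interior
of `R` outside `N` is separated from `N` by one of them. -/
theorem exists_separating {N R : PointedCone ℝ V} {T : Finset (V →L[ℝ] ℝ)}
    (hT : ∀ x, x ∈ N ⊓ R ↔ ∀ τ ∈ T, 0 ≤ τ x) {q z : V} (hqN : q ∈ N)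
    (hq : q ∈ interior (R : Set V)) (hz : z ∈ interior (R : Set V)) (hzN : z ∉ N) :
    ∃ τ ∈ T, τ z < 0 ∧ ∀ y ∈ N, 0 ≤ τ y := by
  classical
  have hqT : ∀ τ ∈ T, 0 ≤ τ q := (hT q).1 ⟨hqN, interior_subset hq⟩
  set A : Finset (V →L[ℝ] ℝ) := T.filter (fun τ => τ z < 0) with hA
  have hAne : A.Nonempty := by
    by_contra hcon
    rw [Finset.not_nonempty_iff_eq_empty] at hcon
    apply hzN
    have h1 : z ∈ N ⊓ R := by
      rw [hT]
      intro τ hτ
      by_contra hneg
      push Not at hneg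
      have : τ ∈ A := Finset.mem_filter.2 ⟨hτ, hneg⟩
      rw [hcon] at this
      exact absurd this (Finset.notMem_empty _)
    exact h1.1
  obtain ⟨τ, hτA, hmin⟩ := A.exists_min_image (fun τ => τ q / (τ q - τ z)) hAne
  obtain ⟨hτ, hτz⟩ := Finset.mem_filter.1 hτA
  have hτq := hqT τ hτ
  have hd : 0 < τ q - τ z := by linarith
  set s : ℝ := τ q / (τ q - τ z) with hs
  have hs0 : 0 ≤ s := div_nonneg hτq hd.le
  have hs1 : s < 1 := by
    rw [hs, div_lt_one hd]
    linarith
  set p : V := (1 - s) • q + s • z with hp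
  have hval : ∀ φ : V →L[ℝ] ℝ, φ p = φ q - s * (φ q - φ z) := by
    intro φ
    rw [hp, map_add, map_smul, map_smul, smul_eq_mul, smul_eq_mul]
    ring
  have hpR : p ∈ interior (R : Set V) :=
    interior_add_mem (interior_smul_mem hq (by linarith))
      (PointedCone.smul_mem R hs0 (interior_subset hz))
  have hτp : τ p = 0 := by
    rw [hval, hs, div_mul_cancel₀ _ hd.ne', sub_self]
  have hpT : ∀ σ ∈ T, 0 ≤ σ p := by
    intro σ hσ
    have hσq := hqT σ hσ
    rw [hval]
    by_cases hσz : σ z < 0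
    · have h1 := hmin σ (Finset.mem_filter.2 ⟨hσ, hσz⟩)
      have h2 : 0 < σ q - σ z := by linarith
      have h3 : s ≤ σ q / (σ q - σ z) := h1
      rw [le_div_iff₀ h2] at h3
      linarith
    · push Not at hσz
      have h1 : σ q - s * (σ q - σ z) = (1 - s) * σ q + s * σ z := by ring
      rw [h1]
      have h2 : 0 ≤ 1 - s := by linarith
      positivity
  have hpN : p ∈ N := ((hT p).2 hpT).1
  refine ⟨τ, hτ, hτz, fun y hy => ?_⟩
  obtain ⟨ε, hε, hεR⟩ := exists_add_smul_mem hpR y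
  have h1 : p + ε • y ∈ N ⊓ R := ⟨N.add_mem hpN (PointedCone.smul_mem N hε.le hy), hεR⟩
  have h2 := (hT _).1 h1 τ hτ
  rw [map_add, hτp, zero_add, map_smul, smul_eq_mul] at h2
  exact nonneg_of_mul_nonneg_right h2 hε

end general

universe u

variable {V : Type u} [NormedAddCommGroup V] [NormedSpace ℝ V] [FiniteDimensional ℝ V]
  {L : Submodule ℤ V} [DiscreteTopology L] [IsZLattice ℝ L]
  {N : PointedCone ℝ V} {J : Finset V} {Γ : Subgroup (V ≃ₗ[ℝ] V)}

omit [FiniteDimensional ℝ V] in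
/-- A point at which the nonnegative functionals vanishing on `J` are nonnegative is in the closure
of `N + span J`, and can be moved into the interior of `N` modulo `span J`. -/
theorem exists_add_mem_interior {N : PointedCone ℝ V} {J : Finset V} {x e : V}
    (hx : ∀ φ : V →L[ℝ] ℝ, (∀ y ∈ N, 0 ≤ φ y) → (∀ p ∈ J, φ p = 0) → 0 ≤ φ x)
    (he : e ∈ interior (N : Set V)) :
    ∃ y ∈ interior (N : Set V), x + e - y ∈ Submodule.span ℝ (J : Set V) := by
  set W : PointedCone ℝ V := (Submodule.span ℝ (J : Set V)).restrictScalars {c : ℝ // 0 ≤ c}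
    with hW
  have hmemW : ∀ w, w ∈ W ↔ w ∈ Submodule.span ℝ (J : Set V) := fun w => by
    rw [hW, Submodule.restrictScalars_mem]
  have hcl : x ∈ closure ((N ⊔ W : PointedCone ℝ V) : Set V) := by
    by_contra hnot
    let C : ProperCone ℝ V := ⟨(N ⊔ W).closure, isClosed_closure⟩
    have hxC : x ∉ C := hnot
    obtain ⟨φ, hφ, hφx⟩ := C.hyperplane_separation_point hxC
    have hsub : ∀ y ∈ N ⊔ W, 0 ≤ φ y := fun y hy => hφ y (subset_closure hy)
    have h1 := hx φ (fun y hy => hsub y (Submodule.mem_sup_left hy)) (fun p hp => by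
      have h2 := hsub p (Submodule.mem_sup_right ((hmemW p).2 (Submodule.subset_span hp)))
      have h3 := hsub (-p) (Submodule.mem_sup_right ((hmemW _).2
        (Submodule.neg_mem _ (Submodule.subset_span hp))))
      rw [map_neg] at h3
      linarith)
    exact absurd hφx (not_lt.2 h1)
  -- a point of `N + span J` close to `x`
  have hopen : IsOpen {x' : V | x - x' + e ∈ interior (N : Set V)} := by
    have hc : Continuous fun x' : V => x - x' + e := by fun_prop
    exact isOpen_interior.preimage hc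
  have hxmem : x ∈ {x' : V | x - x' + e ∈ interior (N : Set V)} := by
    show x - x + e ∈ interior (N : Set V)
    rwa [sub_self, zero_add]
  obtain ⟨x', hx'1, hx'2⟩ := mem_closure_iff.1 hcl _ hopen hxmem
  obtain ⟨y, hy, w, hw, hyw⟩ := Submodule.mem_sup.1 hx'2
  refine ⟨x - x' + e + y, interior_add_mem hx'1 hy, ?_⟩
  have h1 : x + e - (x - x' + e + y) = w := by
    rw [← hyw]
    abel
  rw [h1]
  exact (hmemW w).1 hw

/-- Covers and rational polyhedrality modulo `span J` give bounded walls: `N` is cut out by the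
functionals which vanish on `J` and by finitely many orbits of integral functionals. -/
theorem ModData.exists_bdCone (D : ModData L N J Γ) {Y : Finset V}
    (hY : ∀ y ∈ Y, y ∈ L ∧ y ∈ N) (hcov : Covers N J Y Γ)
    (hpoly : ∀ S : Finset V, (∀ y ∈ S, y ∈ L ∧ y ∈ N) → IsRatPoly L (N ⊓ sumCone S J)) :
    ∃ T : Finset (V →L[ℝ] ℝ), BdCone L N J {ξ | ∃ g ∈ Γ, ∃ τ ∈ T, ∀ x, ξ x = τ (g x)} := by
  classical
  obtain ⟨c, hc⟩ := D.good.interior_nonempty
  obtain ⟨s, hsL, hsN, hcs⟩ := exists_ratPoly_nhds L isOpen_interior hc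
  have hsN' : ∀ v ∈ s, v ∈ N := by
    intro v hv
    obtain ⟨r, hr, hrv⟩ := hsN v hv
    have h1 := interior_smul_mem hrv (inv_pos.2 hr)
    rw [smul_smul, inv_mul_cancel₀ hr.ne', one_smul] at h1
    exact interior_subset h1
  set Y' : Finset V := Y ∪ s with hY'def
  have hY' : ∀ y ∈ Y', y ∈ L ∧ y ∈ N := by
    intro y hy
    rcases Finset.mem_union.1 hy with h | h
    · exact hY y h
    · exact ⟨hsL h, hsN' y h⟩
  set R : PointedCone ℝ V := sumCone Y' J with hR
  have hcR : c ∈ interior (R : Set V) := by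
    refine interior_mono ?_ hcs
    intro v hv
    refine mem_sumCone.2 ⟨v, Submodule.span_mono ?_ hv, by rw [sub_self]; exact Submodule.zero_mem _⟩
    exact Finset.coe_subset.2 Finset.subset_union_right
  obtain ⟨T₀, hT₀L, hT₀⟩ := exists_halfSpaces (hpoly Y' hY')
  set T : Finset (V →L[ℝ] ℝ) := T₀.filter (fun τ => ∀ y ∈ N, 0 ≤ τ y) with hT
  have hTmem : ∀ τ ∈ T, τ ∈ T₀ ∧ ∀ y ∈ N, 0 ≤ τ y := fun τ hτ => Finset.mem_filter.1 hτ
  refine ⟨T, D.comp, ?_, ?_, ?_, ?_⟩
  · rintro ξ ⟨g, hg, τ, hτ, hξ⟩ x hx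
    rw [hξ]
    exact hT₀L τ (hTmem τ hτ).1 _ (D.acts.map_lattice g hg x hx)
  · rintro ξ ⟨g, hg, τ, hτ, hξ⟩ x hx
    rw [hξ]
    exact (hTmem τ hτ).2 _ (D.acts.map_cone g hg x hx)
  · refine ⟨∑ τ ∈ T, ∑ p ∈ J, |τ p|, ?_⟩
    rintro ξ ⟨g, hg, τ, hτ, hξ⟩ p hp
    rw [hξ]
    have h1 : |τ (g p)| ≤ ∑ p ∈ J, |τ p| :=
      Finset.single_le_sum (f := fun p => |τ p|) (fun _ _ => abs_nonneg _) (D.perm g hg p hp)
    have h2 : ∑ p ∈ J, |τ p| ≤ ∑ τ ∈ T, ∑ p ∈ J, |τ p| :=
      Finset.single_le_sum (f := fun τ : V →L[ℝ] ℝ => ∑ p ∈ J, |τ p|)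
        (fun _ _ => Finset.sum_nonneg fun _ _ => abs_nonneg _) hτ
    exact h1.trans h2
  · intro x hx1 hx2
    by_contra hxN
    -- move `x` a little
    obtain ⟨δ, hδ, hδN⟩ := exists_add_smul_mem
      (show x ∈ interior ((N : Set V)ᶜ) by
        rw [D.good.closed.isOpen_compl.interior_eq]
        exact hxN) c
    obtain ⟨y, hy, hxy⟩ := exists_add_mem_interior hx1 (interior_smul_mem hc hδ)
    obtain ⟨g, hg, u, hu, hgu⟩ := hcov y hy
    have h1 : g (x + δ • c) ∈ R := by
      refine mem_sumCone.2 ⟨u, Submodule.span_mono ?_ hu, ?_⟩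
      · exact Finset.coe_subset.2 Finset.subset_union_left
      · have h2 : g (x + δ • c) - u = g (x + δ • c - y) + (g y - u) := by
          rw [map_sub]
          abel
        rw [h2]
        exact Submodule.add_mem _ (D.map_span hg hxy) hgu
    have h2 : g (x + δ • c) ∉ N := by
      intro hcon
      have h3 := D.acts.map_cone _ (inv_mem hg) _ hcon
      have h4 : g⁻¹ (g (x + δ • c)) = x + δ • c := g.symm_apply_apply _
      rw [h4] at h3
      exact hδN h3
    obtain ⟨ε, hε, hεN⟩ := exists_add_smul_mem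
      (show g (x + δ • c) ∈ interior ((N : Set V)ᶜ) by
        rw [D.good.closed.isOpen_compl.interior_eq]
        exact h2) c
    have hzR : g (x + δ • c) + ε • c ∈ interior (R : Set V) := by
      rw [add_comm]
      exact interior_add_mem (interior_smul_mem hcR hε) h1
    obtain ⟨τ, hτ, hτz, hτN⟩ := exists_separating hT₀ (interior_subset hc) hcR hzR hεN
    have hτT : τ ∈ T := Finset.mem_filter.2 ⟨hτ, hτN⟩
    have h3 : 0 ≤ τ (g x) := by
      let ξ : V →L[ℝ] ℝ := τ.comp (LinearMap.toContinuousLinearMap (g : V →ₗ[ℝ] V))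
      exact hx2 ξ ⟨g, hg, τ, hτT, fun x => rfl⟩
    have h4 : 0 ≤ τ (g c) := hτN _ (D.acts.map_cone g hg c (interior_subset hc))
    have h5 : 0 ≤ τ c := hτN c (interior_subset hc)
    rw [map_add, map_add, map_add, map_smul, map_smul, map_smul, smul_eq_mul, smul_eq_mul] at hτz
    have h6 : 0 ≤ δ * τ (g c) := by positivity
    have h7 : 0 ≤ ε * τ c := by positivity
    linarith

/-- The cone conjecture modulo `span J`, with bounded walls. -/
theorem ModData.hasRPFD_iff_walls [Nontrivial V] (D : ModData L N J Γ) {M : PointedCone ℝ V}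
    (hM1 : interior (N : Set V) ⊆ M) (hM2 : M ≤ N) :
    HasRPFD L Γ M ↔ M = ratHull L N ∧
      (∃ Y : Finset V, (∀ y ∈ Y, y ∈ L ∧ y ∈ N) ∧ Covers N J Y Γ) ∧
      ∃ Ξ : Set (V →L[ℝ] ℝ), BdCone L N J Ξ := by
  rw [D.hasRPFD_iff hM1 hM2]
  refine and_congr_right fun _ => ⟨?_, ?_⟩
  · rintro ⟨⟨Y, hY, hcov⟩, hpoly⟩
    obtain ⟨T, hT⟩ := D.exists_bdCone hY hcov hpoly
    exact ⟨⟨Y, hY, hcov⟩, _, hT⟩
  · rintro ⟨hcov, Ξ, hΞ⟩
    exact ⟨hcov, fun S hS => isRatPoly_inf hΞ S hS⟩

end Pool.Agent.Lib.Pad47bbZ
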